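import Pool.Agent.Work.MP_8d2cba_co_helper43.PRE

/-! MP_8d2cba_co: block ABS (helper43), from OrV, OrP, T. -/

set_option autoImplicit false

namespace Pool.OM.H43

open Finset Pool.OM

section glue
variable {G : Type} [Group G] [Fintype G] [DecidableEq G] {ι : Type} [DecidableEq ι]

/-- sum of a family of gadgets -/
def gsum (s : Finset ι) (D : ι → Gad G) : Gad G :=
  ⟨∑ x ∈ s, (D x).I, ∑ x ∈ s, (D x).V, ∑ x ∈ s, (D x).C⟩

theorem gsum_size (s : Finset ι) (D : ι → Gad G) : (gsum s D).size = ∑ x ∈ s, (D x).size := by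
  simp only [gsum, Gad.size, Multiset.card_sum, Finset.sum_add_distrib]

theorem gsum_insert (s : Finset ι) (D : ι → Gad G) (a : ι) (ha : a ∉ s) :
    gsum (insert a s) D = (gsum s D).add (D a) := by
  simp only [gsum, Gad.add, Finset.sum_insert ha]
  rw [add_comm (D a).I, add_comm (D a).V, add_comm (D a).C]

theorem gsum_congr (s : Finset ι) (D D' : ι → Gad G) (h : ∀ x ∈ s, D x = D' x) :
    gsum s D = gsum s D' := by
  simp only [gsum]
  rw [Finset.sum_congr rfl (fun x hx => by rw [h x hx] : ∀ x ∈ s, (D x).I = (D' x).I),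
    Finset.sum_congr rfl (fun x hx => by rw [h x hx] : ∀ x ∈ s, (D x).V = (D' x).V),
    Finset.sum_congr rfl (fun x hx => by rw [h x hx] : ∀ x ∈ s, (D x).C = (D' x).C)]

/-- greedy gluing of gadgets -/
theorem glue (k K : ℕ) (hK : 1 ≤ K) (FV FC : Finset G) (wt : ι → ℕ) (Q : ι → Gad G → Prop)
    (hex : ∀ (x : ι) (FV' FC' : Finset G), K * (FV'.card + FC'.card + wt x + 1) ≤ Fintype.card G →
      ∃ D : Gad G, D.size ≤ K * (wt x + 1) ∧ Fresh k FV' FC' D ∧ Q x D)
    (s : Finset ι)
    (hn : K * (FV.card + FC.card + 6 * K * ∑ x ∈ s, (wt x + 1)) ≤ Fintype.card G) :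
    ∃ D : ι → Gad G, (∀ x ∈ s, Q x (D x)) ∧ (gsum s D).size ≤ K * ∑ x ∈ s, (wt x + 1) ∧
      Fresh k FV FC (gsum s D) := by
  induction s using Finset.induction_on with
  | empty =>
    refine ⟨fun _ => Gad.zero, by simp, by simp [gsum, Gad.size], ?_⟩
    have : gsum (∅ : Finset ι) (fun _ => (Gad.zero : Gad G)) = Gad.zero := by
      simp [gsum, Gad.zero]
    rw [this]
    exact Fresh.zero _ _ _
  | insert a s ha ih =>
    rw [Finset.sum_insert ha] at hn
    obtain ⟨D, h1, h2, h3⟩ := ih (le_trans (Nat.mul_le_mul_left _ (by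
      have : 6 * K * ∑ x ∈ s, (wt x + 1) ≤ 6 * K * ((wt a + 1) + ∑ x ∈ s, (wt x + 1)) :=
        Nat.mul_le_mul_left _ (by omega)
      omega)) hn)
    obtain ⟨E, e1, e2, e3⟩ := hex a (FV ∪ (gsum s D).vf k) (FC ∪ (gsum s D).cf k) (by
      refine le_trans (Nat.mul_le_mul_left _ ?_) hn
      have g1 := Finset.card_union_le FV ((gsum s D).vf k)
      have g2 := Finset.card_union_le FC ((gsum s D).cf k)
      have g3 := (gsum s D).card_vf_le k
      have g4 := (gsum s D).card_cf_le k
      have g5 : 6 * K * ((wt a + 1) + ∑ x ∈ s, (wt x + 1)) =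
        6 * (K * (wt a + 1)) + 6 * (K * ∑ x ∈ s, (wt x + 1)) := by ring
      have g6 : wt a + 1 ≤ K * (wt a + 1) := Nat.le_mul_of_pos_left _ hK
      omega)
    have hcong : ∀ x ∈ s, Function.update D a E x = D x := by
      intro x hx
      apply Function.update_of_ne
      rintro rfl
      exact ha hx
    have hsum : gsum (insert a s) (Function.update D a E) = (gsum s D).add E := by
      rw [gsum_insert _ _ _ ha, gsum_congr s _ D hcong, Function.update_self]
    refine ⟨Function.update D a E, ?_, ?_, ?_⟩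
    · intro x hx
      rcases Finset.mem_insert.mp hx with rfl | hx
      · rw [Function.update_self]; exact e3
      · rw [hcong x hx]; exact h1 x hx
    · rw [hsum, Gad.add_size, Finset.sum_insert ha, mul_add]
      omega
    · rw [hsum]
      exact h3.add e2

theorem ms_gsum (s : Finset ι) (D : ι → Gad G) (V C : ι → Multiset G)
    (h : ∀ x ∈ s, MS (D x).idx (V x + (D x).V) (C x + (D x).C)) :
    MS (gsum s D).idx ((∑ x ∈ s, V x) + (gsum s D).V) ((∑ x ∈ s, C x) + (gsum s D).C) := by
  induction s using Finset.induction_on with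
  | empty => simpa [gsum, Gad.idx] using MS.zero
  | insert a s ha ih =>
    rw [gsum_insert _ _ _ ha, Finset.sum_insert ha, Finset.sum_insert ha, Gad.add_idx,
      Gad.add_V, Gad.add_C]
    have h1 := ih (fun x hx => h x (Finset.mem_insert_of_mem hx))
    have h2 := h a (Finset.mem_insert_self _ _)
    have h3 := h1.add h2
    have e1 : V a + ∑ x ∈ s, V x + ((gsum s D).V + (D a).V) =
        (∑ x ∈ s, V x) + (gsum s D).V + (V a + (D a).V) := by abel
    have e2 : C a + ∑ x ∈ s, C x + ((gsum s D).C + (D a).C) =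
        (∑ x ∈ s, C x) + (gsum s D).C + (C a + (D a).C) := by abel
    rw [e1, e2]
    exact h3

end glue

/-- use of the template -/
theorem template_use (z u : ℕ) (hu : u ≤ z) (f : Fin (3 * z - u) → Fin (2 * z) ⊕ Fin z)
    (hf : Function.Injective f) (Z : Finset (Fin z)) (hZ : Z.card + u = z)
    (hfZ : ∀ x j, f x = Sum.inr j → j ∈ Z) :
    (univ : Finset (Fin (3 * z - u))).val.map f =
      (univ : Finset (Fin (2 * z))).val.map Sum.inl + Z.val.map Sum.inr := by
  classical
  have h1 : (univ : Finset (Fin (3 * z - u))).image f = univ.disjSum Z := by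
    apply Finset.eq_of_subset_of_card_le
    · intro y hy
      rw [Finset.mem_image] at hy
      obtain ⟨x, _, rfl⟩ := hy
      rw [Finset.mem_disjSum]
      rcases h : f x with a | b
      · left; exact ⟨a, Finset.mem_univ _, rfl⟩
      · right; exact ⟨b, hfZ x b h, rfl⟩
    · rw [Finset.card_image_of_injective _ hf, Finset.card_disjSum]
      simp only [Finset.card_univ, Fintype.card_fin]
      omega
  have h2 : ((univ : Finset (Fin (3 * z - u))).image f).val =
      (univ : Finset (Fin (3 * z - u))).val.map f :=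
    Finset.image_val_of_injOn hf.injOn
  rw [← h2, h1]
  rfl

section bufs
variable {G : Type} [Group G] [Fintype G] [DecidableEq G]

/-- a buffer of vertices -/
theorem exists_bufV (FV : Finset G) (m : ℕ) (hn : FV.card + m ≤ Fintype.card G) :
    ∃ B : Finset G, B.card = m ∧ Disjoint B FV := by
  have h1 : m ≤ (univ \ FV).card := by
    rw [Finset.card_sdiff_of_subset (Finset.subset_univ _), Finset.card_univ]
    omega
  obtain ⟨B, hB, hc⟩ := Finset.exists_subset_card_eq h1
  refine ⟨B, hc, ?_⟩
  rw [Finset.disjoint_left]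
  intro x hx
  exact (Finset.mem_sdiff.mp (hB hx)).2

/-- a buffer of pairs -/
theorem exists_bufP (γ : G) (hγ : γ * γ = 1) (K : ℕ) (hK : 1 ≤ K) (hrt : 4 * rt γ ≤ Fintype.card G)
    (FC : Finset G) : ∀ (m : ℕ), 4 * (2 * FC.card + 4 * m + 2 * K + 3) ≤ Fintype.card G →
    ∃ B : Finset G, B.card = m ∧ (prs γ B.val).Nodup ∧
      (∀ c ∈ prs γ B.val, c ∉ FC) ∧
      (∀ c ∈ B, c ≠ 1 ∧ c⁻¹ * γ ≠ 1 ∧ K * rt c ≤ Fintype.card G ∧
        K * rt (c⁻¹ * γ) ≤ Fintype.card G) := by
  intro m
  induction m with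
  | zero =>
    intro _
    refine ⟨∅, rfl, by simp, by simp, by simp⟩
  | succ m ih =>
    intro hn
    obtain ⟨B, hB1, hB2, hB3, hB4⟩ := ih (by omega)
    set F : Finset G := FC ∪ (prs γ B.val).toFinset ∪ {1} ∪
      (univ.filter fun c : G => Fintype.card G < K * rt c) with hF
    have hFc : F.card ≤ FC.card + 2 * m + 1 + K := by
      have h1 := Finset.card_union_le (FC ∪ (prs γ B.val).toFinset ∪ {1})
        (univ.filter fun c : G => Fintype.card G < K * rt c)
      have h2 := Finset.card_union_le (FC ∪ (prs γ B.val).toFinset) ({1} : Finset G)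
      have h3 := Finset.card_union_le FC (prs γ B.val).toFinset
      have h4 := Multiset.toFinset_card_le (prs γ B.val)
      have h5 := card_prs γ B.val
      have h6 := card_badrt (G := G) K
      have h7 : Multiset.card B.val = m := hB1
      rw [Finset.card_singleton] at h2
      rw [hF]
      omega
    obtain ⟨b, hb0, hb⟩ := exists_avoid (univ.filter fun b : G => ¬ b * b = γ)
      [((fun b : G => b), F), ((fun b : G => b⁻¹ * γ), F)]
      (by
        intro a ha
        simp only [List.mem_cons, List.not_mem_nil, or_false] at ha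
        rcases ha with rfl | rfl
        · exact fun _ _ h => h
        · intro x y hxy
          exact inv_injective (mul_right_cancel hxy))
      (by
        have h1 : (univ.filter fun b : G => b * b = γ).card +
            (univ.filter fun b : G => ¬ b * b = γ).card = (univ : Finset G).card :=
          Finset.card_filter_add_card_filter_not _
        have h2 : (univ.filter fun b : G => b * b = γ).card = rt γ := rfl
        rw [Finset.card_univ] at h1
        simp only [List.map_cons, List.map_nil, List.sum_cons, List.sum_nil]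
        omega)
    rw [Finset.mem_filter] at hb0
    simp only [List.mem_cons, List.not_mem_nil, or_false, forall_eq_or_imp, forall_eq] at hb
    simp only [hF, Finset.mem_union, Finset.mem_singleton, Finset.mem_filter, Finset.mem_univ,
      true_and, not_or, Multiset.mem_toFinset, not_lt] at hb
    obtain ⟨⟨⟨⟨b1, b2⟩, b3⟩, b4⟩, ⟨⟨c1, c2⟩, c3⟩, c4⟩ := hb
    have hbB : b ∉ B := by
      intro h
      apply b2
      rw [prs, Multiset.mem_bind]
      exact ⟨b, h, by simp [pr]⟩
    refine ⟨insert b B, ?_, ?_, ?_, ?_⟩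
    · rw [Finset.card_insert_of_notMem hbB, hB1]
    · rw [Finset.insert_val_of_notMem hbB, prs_cons, Multiset.nodup_add]
      refine ⟨?_, hB2, ?_⟩
      · simp only [pr, Multiset.insert_eq_cons, Multiset.nodup_cons, Multiset.mem_singleton,
          Multiset.nodup_singleton, and_true]
        intro h
        apply hb0.2
        nth_rewrite 2 [h]
        group
      · rw [Multiset.disjoint_left]
        intro x hx
        simp only [pr, Multiset.insert_eq_cons, Multiset.mem_cons, Multiset.mem_singleton] at hx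
        rcases hx with rfl | rfl
        · exact b2
        · exact c2
    · intro c hc
      rw [Finset.insert_val_of_notMem hbB, prs_cons, Multiset.mem_add] at hc
      rcases hc with hc | hc
      · simp only [pr, Multiset.insert_eq_cons, Multiset.mem_cons, Multiset.mem_singleton] at hc
        rcases hc with rfl | rfl
        · exact b1
        · exact c1
      · exact hB3 c hc
    · intro c hc
      rcases Finset.mem_insert.mp hc with rfl | hc
      · exact ⟨b3, c3, b4, c4⟩
      · exact hB4 c hc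

/-- enumeration of a finite set -/
theorem exists_enum (B : Finset G) (m : ℕ) (hB : B.card = m) :
    ∃ g : Fin m → G, Function.Injective g ∧ (∀ j, g j ∈ B) ∧
      (univ : Finset (Fin m)).val.map g = B.val := by
  set e := (Finset.equivFinOfCardEq hB).symm with he
  have hinj : Function.Injective fun j => (e j : G) := by
    intro i j h
    exact e.injective (Subtype.ext h)
  refine ⟨fun j => (e j : G), hinj, fun j => (e j).2, ?_⟩
  rw [Multiset.Nodup.ext]
  · intro x
    rw [Multiset.mem_map]
    constructor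
    · rintro ⟨j, _, rfl⟩
      exact (e j).2
    · intro hx
      refine ⟨e.symm ⟨x, hx⟩, Finset.mem_val.mpr (Finset.mem_univ _), ?_⟩
      simp
  · exact Multiset.Nodup.map hinj (Finset.nodup _)
  · exact B.nodup

theorem enum_sub (R R' : Finset G) (z : ℕ) (g : Fin z → G) (hg : Function.Injective g)
    (hR : (univ : Finset (Fin z)).val.map g = R.val) (hsub : R' ⊆ R) :
    ∃ Z : Finset (Fin z), Z.card = R'.card ∧ Z.val.map g = R'.val := by
  have h1 : (univ.filter fun j => g j ∈ R').val.map g = R'.val := by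
    rw [Multiset.Nodup.ext]
    · intro x
      rw [Multiset.mem_map]
      constructor
      · rintro ⟨j, hj, rfl⟩
        exact (Finset.mem_filter.mp (Finset.mem_val.mp hj)).2
      · intro hx
        have h2 : x ∈ (univ : Finset (Fin z)).val.map g := by
          rw [hR]; exact hsub hx
        obtain ⟨j, _, rfl⟩ := Multiset.mem_map.mp h2
        exact ⟨j, Finset.mem_val.mpr (Finset.mem_filter.mpr ⟨Finset.mem_univ _, hx⟩), rfl⟩
    · exact Multiset.Nodup.map hg (Finset.nodup _)
    · exact R'.nodup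
  refine ⟨univ.filter fun j => g j ∈ R', ?_, h1⟩
  have h2 := congrArg Multiset.card h1
  rw [Multiset.card_map] at h2
  exact h2

theorem slots (k K : ℕ) (hK : 1 ≤ K) (FV FC : Finset G) (z u : ℕ)
    (E : Finset (Fin (3 * z - u) × (Fin (2 * z) ⊕ Fin z)))
    (el : Fin (2 * z) ⊕ Fin z → G) (Q : G → Gad G → Prop)
    (hex : ∀ (Z FV' FC' : Finset G), (∀ x ∈ Z, ∃ j, el j = x) →
      K * (FV'.card + FC'.card + Z.card + 1) ≤ Fintype.card G →
      ∃ D : Gad G, D.size ≤ K * (Z.card + 1) ∧ Fresh k FV' FC' D ∧ ∀ x ∈ Z, Q x D)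
    (hn : K * (FV.card + FC.card + 6 * K * (E.card + 3 * z)) ≤ Fintype.card G) :
    ∃ D : Fin (3 * z - u) → Gad G, (∀ x j, (x, j) ∈ E → Q (el j) (D x)) ∧
      (gsum univ D).size ≤ K * (E.card + 3 * z) ∧ Fresh k FV FC (gsum univ D) := by
  classical
  set Zx : Fin (3 * z - u) → Finset G := fun x => (univ.filter fun j => (x, j) ∈ E).image el
    with hZx
  have hsum : ∑ x, ((Zx x).card + 1) ≤ E.card + 3 * z := by
    rw [Finset.sum_add_distrib]
    have h1 : ∑ x, (Zx x).card ≤ E.card := by
      calc ∑ x, (Zx x).card ≤ ∑ x, (univ.filter fun j => (x, j) ∈ E).card :=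
            Finset.sum_le_sum fun x _ => Finset.card_image_le
        _ ≤ ∑ x, (E.filter fun p => p.1 = x).card := by
            apply Finset.sum_le_sum
            intro x _
            apply Finset.card_le_card_of_injOn (fun j => (x, j))
            · intro j hj
              rw [Finset.mem_coe, Finset.mem_filter] at hj
              rw [Finset.mem_coe, Finset.mem_filter]
              exact ⟨hj.2, rfl⟩
            · intro a _ b _ h
              exact (Prod.mk.inj h).2
        _ = E.card := (Finset.card_eq_sum_card_fiberwise (fun p _ => Finset.mem_univ p.1)).symm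
    have h2 : ∑ _x : Fin (3 * z - u), 1 ≤ 3 * z := by simp
    omega
  obtain ⟨D, h1, h2, h3⟩ := glue k K hK FV FC (fun x => (Zx x).card)
    (fun x D => ∀ y ∈ Zx x, Q y D)
    (fun x FV' FC' h => hex (Zx x) FV' FC' (by
      intro y hy
      obtain ⟨j, _, rfl⟩ := Finset.mem_image.mp hy
      exact ⟨j, rfl⟩) h)
    univ (le_trans (Nat.mul_le_mul_left _ (Nat.add_le_add_left (Nat.mul_le_mul_left _ hsum) _)) hn)
  refine ⟨D, ?_, ?_, h3⟩
  · intro x j hxj
    apply h1 x (Finset.mem_univ _)
    rw [hZx, Finset.mem_image]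
    exact ⟨j, by simpa using hxj, rfl⟩
  · exact h2.trans (Nat.mul_le_mul_left _ hsum)

end bufs

theorem abs_V (hOrV : Stmt_OrV) (hT : Stmt_T) :
    ∃ K : ℕ, ∀ (G : Type) [Group G] [Fintype G] [DecidableEq G] (k : ℕ)
  (FV FC R : Finset G) (uV : ℕ), 3 ≤ k → k ∣ Fintype.card G - 1 →
  K ≤ R.card → uV ≤ R.card →
  K * (FV.card + FC.card + R.card + 1) ≤ Fintype.card G →
  ∃ D : Gad G, D.size ≤ K * R.card ∧ Fresh k FV FC D ∧
    ∀ R' : Finset G, R' ⊆ R → R'.card + uV = R.card →
      MS D.idx (D.V + R'.val) D.C := by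
  obtain ⟨K₁, hK₁⟩ := hOrV
  obtain ⟨d, z₀, hT⟩ := hT
  set K := K₁ + 1 with hKdef
  refine ⟨6 * K * K * (d + 3) + 4 * K + z₀, ?_⟩
  intro G _ _ _ k FV FC R uV hk hkn hz₀ hu hn
  obtain ⟨E, hE1, hE2⟩ := hT R.card uV (by omega) hu
  have hbig : 4 * K * (FV.card + FC.card + R.card + 1) ≤ Fintype.card G :=
    (Nat.mul_le_mul_right _ (by omega)).trans hn
  obtain ⟨B, hB1, hB2⟩ := exists_bufV FV (2 * R.card) (by
    have : 1 * (4 * (FV.card + FC.card + R.card + 1)) ≤
      K * (4 * (FV.card + FC.card + R.card + 1)) := Nat.mul_le_mul_right _ (by omega)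
    have e : K * (4 * (FV.card + FC.card + R.card + 1)) =
      4 * K * (FV.card + FC.card + R.card + 1) := by ring
    omega)
  obtain ⟨gB, gB1, gB2, gB3⟩ := exists_enum B _ hB1
  obtain ⟨gR, gR1, gR2, gR3⟩ := exists_enum R _ rfl
  set D0 : Gad G := ⟨0, B.val, 0⟩ with hD0
  have hD0v : D0.verts k = B.val := by simp [hD0, Gad.verts]
  have hD0c : D0.cols k = 0 := by simp [hD0, Gad.cols]
  have hF0 : Fresh k FV FC D0 := by
    refine ⟨?_, ?_, ?_, ?_, ?_, ?_⟩
    · intro _ i hi; simp [hD0] at hi
    · rw [hD0v]; exact B.nodup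
    · rw [hD0v]
      intro x hx hx'
      exact (Finset.disjoint_left.mp hB2) hx hx'
    · rw [hD0c]; exact Multiset.nodup_zero
    · rw [hD0c]; intro c hc; simp at hc
    · rw [hD0c]; intro c hc; simp at hc
  have hD0vf : (D0.vf k).card = 2 * R.card := by
    rw [Gad.vf, hD0v, Finset.val_toFinset, hB1]
  have hD0cf : (D0.cf k).card = 0 := by
    rw [Gad.cf, hD0c]; simp
  obtain ⟨D, hD1, hD2, hD3⟩ := slots k K (by omega) (FV ∪ D0.vf k) (FC ∪ D0.cf k) R.card uV E
    (Sum.elim gB gR) (fun x D => MS D.idx (x ::ₘ D.V) D.C)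
    (by
      intro Z FV' FC' _ h
      obtain ⟨D, h1, h2, h3⟩ := hK₁ G k FV' FC' Z hk hkn
        ((Nat.mul_le_mul_right _ (by omega)).trans h)
      exact ⟨D, h1.trans (Nat.mul_le_mul_right _ (by omega)), h2, h3⟩)
    (by
      refine le_trans ?_ hn
      have g1 := Finset.card_union_le FV (D0.vf k)
      have g2 := Finset.card_union_le FC (D0.cf k)
      have g3 : K * ((FV ∪ D0.vf k).card + (FC ∪ D0.cf k).card + 6 * K * (E.card + 3 * R.card)) ≤
          K * ((FV.card + 2 * R.card) + FC.card + 6 * K * (d * R.card + 3 * R.card)) := by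
        apply Nat.mul_le_mul_left
        have : 6 * K * (E.card + 3 * R.card) ≤ 6 * K * (d * R.card + 3 * R.card) :=
          Nat.mul_le_mul_left _ (by omega)
        omega
      refine g3.trans ?_
      have e : (6 * K * K * (d + 3) + 4 * K + z₀) * (FV.card + FC.card + R.card + 1) =
        K * ((FV.card + 2 * R.card) + FC.card + 6 * K * (d * R.card + 3 * R.card)) +
        (K * (3 * FV.card + 3 * FC.card + 2 * R.card + 4) + 6 * K * K * (d + 3) *
          (FV.card + FC.card + 1) + z₀ * (FV.card + FC.card + R.card + 1)) := by ring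
      omega)
  refine ⟨D0.add (gsum univ D), ?_, ?_, ?_⟩
  · rw [Gad.add_size]
    have h1 : D0.size = 2 * R.card := by
      simp only [hD0, Gad.size, Multiset.card_zero, zero_add, add_zero]
      exact hB1
    have h2 : K * (E.card + 3 * R.card) ≤ K * ((d + 3) * R.card) :=
      Nat.mul_le_mul_left _ (by rw [add_mul]; omega)
    have h3 : K * ((d + 3) * R.card) = K * (d + 3) * R.card := by ring
    have h4 : K * (d + 3) * R.card ≤ 6 * K * K * (d + 3) * R.card := by
      apply Nat.mul_le_mul_right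
      apply Nat.mul_le_mul_right
      calc K = 1 * K := by ring
        _ ≤ 6 * K * K := Nat.mul_le_mul_right _ (by omega)
    have h5 : 2 * R.card ≤ (4 * K + z₀) * R.card := Nat.mul_le_mul_right _ (by omega)
    have h6 : (6 * K * K * (d + 3) + 4 * K + z₀) * R.card = 6 * K * K * (d + 3) * R.card +
      (4 * K + z₀) * R.card := by ring
    omega
  · exact hF0.add hD3
  · intro R' hR' hcard
    obtain ⟨Z, hZ1, hZ2⟩ := enum_sub R R' _ gR gR1 gR3 hR'
    obtain ⟨f, hf1, hf2, hf3⟩ := hE2 Z (by omega)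
    have h1 := template_use R.card uV hu f hf1 Z (by omega) hf3
    have h2 := ms_gsum (univ : Finset (Fin (3 * R.card - uV))) D
      (fun x => {Sum.elim gB gR (f x)}) (fun _ => 0) (by
        intro x _
        rw [zero_add]
        exact hD1 x (f x) (hf2 x))
    have h3 : ∑ x, ({Sum.elim gB gR (f x)} : Multiset G) = B.val + R'.val := by
      have e1 : ∑ x, ({Sum.elim gB gR (f x)} : Multiset G) =
          ((univ : Finset (Fin (3 * R.card - uV))).val.map f).map (Sum.elim gB gR) := by
        rw [Multiset.map_map, ← Multiset.sum_map_singleton (Multiset.map _ _), Multiset.map_map]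
        rfl
      rw [e1, h1, Multiset.map_add, Multiset.map_map, Multiset.map_map]
      have e2 : (Sum.elim gB gR) ∘ Sum.inl = gB := rfl
      have e3 : (Sum.elim gB gR) ∘ Sum.inr = gR := rfl
      rw [e2, e3, gB3, hZ2]
    rw [h3] at h2
    rw [Gad.add_idx, Gad.add_V, Gad.add_C]
    have h4 : D0.idx = 0 := by simp [hD0, Gad.idx]
    have h5 : D0.V = B.val := rfl
    have h6 : D0.C = 0 := rfl
    rw [h4, h5, h6, zero_add, zero_add]
    simp only [Finset.sum_const_zero, zero_add] at h2
    have e : B.val + (gsum univ D).V + R'.val = B.val + R'.val + (gsum univ D).V := by abel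
    rw [e]
    exact h2

theorem abs_P (hOrP : Stmt_OrP) (hT : Stmt_T) :
    ∃ K : ℕ, ∀ (G : Type) [Group G] [Fintype G] [DecidableEq G] (k : ℕ)
  (γ : G) (FV FC P : Finset G) (uP : ℕ), 3 ≤ k → k ∣ Fintype.card G - 1 →
  γ * γ = 1 → K * rt γ ≤ Fintype.card G →
  (∀ c ∈ P, c ≠ 1 ∧ c⁻¹ * γ ≠ 1 ∧ K * rt c ≤ Fintype.card G ∧
    K * rt (c⁻¹ * γ) ≤ Fintype.card G) →
  K ≤ P.card → uP ≤ P.card →
  K * (FV.card + FC.card + P.card + 1) ≤ Fintype.card G →
  ∃ D : Gad G, D.size ≤ K * P.card ∧ Fresh k FV FC D ∧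
    ∀ P' : Finset G, P' ⊆ P → P'.card + uP = P.card →
      MS D.idx D.V (D.C + prs γ P'.val) := by
  obtain ⟨K₁, hK₁⟩ := hOrP
  obtain ⟨d, z₀, hT⟩ := hT
  set K := K₁ + 1 with hKdef
  refine ⟨6 * K * K * (d + 3) + 60 * K + z₀, ?_⟩
  intro G _ _ _ k γ FV FC P uP hk hkn hγ hrt hP hz₀ hu hn
  obtain ⟨E, hE1, hE2⟩ := hT P.card uP (by omega) hu
  have hKK : K ≤ 6 * K * K * (d + 3) + 60 * K + z₀ := by omega
  have hK1K : K₁ ≤ 6 * K * K * (d + 3) + 60 * K + z₀ := by omega
  have hrt' : K * rt γ ≤ Fintype.card G := (Nat.mul_le_mul_right _ hKK).trans hrt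
  have hrt4 : 4 * rt γ ≤ Fintype.card G := (Nat.mul_le_mul_right _ (by omega)).trans hrt
  have hbig : 60 * K * (FV.card + FC.card + P.card + 1) ≤ Fintype.card G :=
    (Nat.mul_le_mul_right _ (by omega)).trans hn
  obtain ⟨B, hB1, hB2, hB3, hB4⟩ := exists_bufP γ hγ K (by omega) hrt4 (FC ∪ {1})
    (2 * P.card) (by
    refine le_trans ?_ hbig
    have h1 := Finset.card_union_le FC ({1} : Finset G)
    rw [Finset.card_singleton] at h1
    have h2 : FV.card + FC.card + P.card + 1 ≤ K * (FV.card + FC.card + P.card + 1) :=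
      Nat.le_mul_of_pos_left _ (by omega)
    have h3 : K * 1 ≤ K * (FV.card + FC.card + P.card + 1) := Nat.mul_le_mul_left _ (by omega)
    have e : 60 * K * (FV.card + FC.card + P.card + 1) =
      60 * (K * (FV.card + FC.card + P.card + 1)) := by ring
    omega)
  obtain ⟨gB, gB1, gB2, gB3⟩ := exists_enum B _ hB1
  obtain ⟨gR, gR1, gR2, gR3⟩ := exists_enum P _ rfl
  set D0 : Gad G := ⟨0, 0, prs γ B.val⟩ with hD0
  have hD0v : D0.verts k = 0 := by simp [hD0, Gad.verts]
  have hD0c : D0.cols k = prs γ B.val := by simp [hD0, Gad.cols]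
  have hF0 : Fresh k FV FC D0 := by
    refine ⟨?_, ?_, ?_, ?_, ?_, ?_⟩
    · intro _ i hi; simp [hD0] at hi
    · rw [hD0v]; exact Multiset.nodup_zero
    · rw [hD0v]; intro c hc; simp at hc
    · rw [hD0c]; exact hB2
    · rw [hD0c]
      intro c hc hc'
      exact hB3 c hc (Finset.mem_union_left _ hc')
    · rw [hD0c]
      intro c hc hc'
      exact hB3 c hc (Finset.mem_union_right _ (Finset.mem_singleton.mpr hc'))
  have hD0vf : (D0.vf k).card = 0 := by
    rw [Gad.vf, hD0v]; simp
  have hD0cf : (D0.cf k).card ≤ 4 * P.card := by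
    rw [Gad.cf, hD0c]
    have h1 := Multiset.toFinset_card_le (prs γ B.val)
    have h2 := card_prs γ B.val
    have h3 : Multiset.card B.val = 2 * P.card := hB1
    omega
  obtain ⟨D, hD1, hD2, hD3⟩ := slots k K (by omega) (FV ∪ D0.vf k) (FC ∪ D0.cf k) P.card uP E
    (Sum.elim gB gR) (fun x D => MS D.idx D.V (pr γ x + D.C))
    (by
      intro Z FV' FC' hZ h
      obtain ⟨D, h1, h2, h3⟩ := hK₁ G k γ FV' FC' Z hk hkn
        ((Nat.mul_le_mul_right _ (by omega)).trans hrt')
        (by
          intro c hc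
          obtain ⟨j, rfl⟩ := hZ c hc
          rcases j with j | j
          · have := hB4 _ (gB2 j)
            refine ⟨this.1, this.2.1, ?_, ?_⟩
            · exact (Nat.mul_le_mul_right _ (by omega)).trans this.2.2.1
            · exact (Nat.mul_le_mul_right _ (by omega)).trans this.2.2.2
          · have := hP _ (gR2 j)
            refine ⟨this.1, this.2.1, ?_, ?_⟩
            · exact (Nat.mul_le_mul_right _ hK1K).trans this.2.2.1
            · exact (Nat.mul_le_mul_right _ hK1K).trans this.2.2.2)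
        ((Nat.mul_le_mul_right _ (by omega)).trans h)
      exact ⟨D, h1.trans (Nat.mul_le_mul_right _ (by omega)), h2, h3⟩)
    (by
      refine le_trans ?_ hn
      have g1 := Finset.card_union_le FV (D0.vf k)
      have g2 := Finset.card_union_le FC (D0.cf k)
      have g3 : K * ((FV ∪ D0.vf k).card + (FC ∪ D0.cf k).card + 6 * K * (E.card + 3 * P.card)) ≤
          K * (FV.card + (FC.card + 4 * P.card) + 6 * K * (d * P.card + 3 * P.card)) := by
        apply Nat.mul_le_mul_left
        have : 6 * K * (E.card + 3 * P.card) ≤ 6 * K * (d * P.card + 3 * P.card) :=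
          Nat.mul_le_mul_left _ (by omega)
        omega
      refine g3.trans ?_
      have e : (6 * K * K * (d + 3) + 60 * K + z₀) * (FV.card + FC.card + P.card + 1) =
        K * (FV.card + (FC.card + 4 * P.card) + 6 * K * (d * P.card + 3 * P.card)) +
        (K * (59 * FV.card + 59 * FC.card + 56 * P.card + 60) + 6 * K * K * (d + 3) *
          (FV.card + FC.card + 1) + z₀ * (FV.card + FC.card + P.card + 1)) := by ring
      omega)
  refine ⟨D0.add (gsum univ D), ?_, ?_, ?_⟩
  · rw [Gad.add_size]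
    have h1 : D0.size = 4 * P.card := by
      simp only [hD0, Gad.size, Multiset.card_zero, zero_add]
      have h2 := card_prs γ B.val
      have h3 : Multiset.card B.val = 2 * P.card := hB1
      omega
    have h2 : K * (E.card + 3 * P.card) ≤ K * ((d + 3) * P.card) :=
      Nat.mul_le_mul_left _ (by rw [add_mul]; omega)
    have h3 : K * ((d + 3) * P.card) = K * (d + 3) * P.card := by ring
    have h4 : K * (d + 3) * P.card ≤ 6 * K * K * (d + 3) * P.card := by
      apply Nat.mul_le_mul_right
      apply Nat.mul_le_mul_right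
      calc K = 1 * K := by ring
        _ ≤ 6 * K * K := Nat.mul_le_mul_right _ (by omega)
    have h5 : 4 * P.card ≤ (60 * K + z₀) * P.card := Nat.mul_le_mul_right _ (by omega)
    have h6 : (6 * K * K * (d + 3) + 60 * K + z₀) * P.card = 6 * K * K * (d + 3) * P.card +
      (60 * K + z₀) * P.card := by ring
    omega
  · exact hF0.add hD3
  · intro P' hP' hcard
    obtain ⟨Z, hZ1, hZ2⟩ := enum_sub P P' _ gR gR1 gR3 hP'
    obtain ⟨f, hf1, hf2, hf3⟩ := hE2 Z (by omega)
    have h1 := template_use P.card uP hu f hf1 Z (by omega) hf3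
    have h2 := ms_gsum (univ : Finset (Fin (3 * P.card - uP))) D
      (fun _ => 0) (fun x => pr γ (Sum.elim gB gR (f x))) (by
        intro x _
        rw [zero_add]
        exact hD1 x (f x) (hf2 x))
    have h3 : ∑ x, pr γ (Sum.elim gB gR (f x)) = prs γ B.val + prs γ P'.val := by
      have e1 : ∑ x, pr γ (Sum.elim gB gR (f x)) =
          prs γ (((univ : Finset (Fin (3 * P.card - uP))).val.map f).map (Sum.elim gB gR)) := by
        rw [Multiset.map_map, prs, Multiset.bind_map]
        rfl
      rw [e1, h1, Multiset.map_add, Multiset.map_map, Multiset.map_map]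
      have e2 : (Sum.elim gB gR) ∘ Sum.inl = gB := rfl
      have e3 : (Sum.elim gB gR) ∘ Sum.inr = gR := rfl
      rw [e2, e3, gB3, hZ2, prs_add]
    rw [h3] at h2
    rw [Gad.add_idx, Gad.add_V, Gad.add_C]
    have h4 : D0.idx = 0 := by simp [hD0, Gad.idx]
    have h5 : D0.V = 0 := rfl
    have h6 : D0.C = prs γ B.val := rfl
    rw [h4, h5, h6, zero_add, zero_add]
    simp only [Finset.sum_const_zero, zero_add] at h2
    have e : prs γ B.val + (gsum univ D).C + prs γ P'.val =
      prs γ B.val + prs γ P'.val + (gsum univ D).C := by abel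
    rw [e]
    exact h2

theorem stmt_ABS (hOrV : Stmt_OrV) (hOrP : Stmt_OrP) (hT : Stmt_T) : Stmt_ABS := by
  obtain ⟨K₁, hK₁⟩ := abs_V hOrV hT
  obtain ⟨K₂, hK₂⟩ := abs_P hOrP hT
  refine ⟨K₁ + K₂ + 5 * K₂ * K₁, ?_⟩
  intro G _ _ _ k γ FV FC R P uV uP hk hkn hγ hrt hP hKR hKP huV huP hn
  obtain ⟨D, hD1, hD2, hD3⟩ := hK₁ G k FV FC R uV hk hkn (by omega) huV (by
    refine le_trans ?_ hn
    exact Nat.mul_le_mul (by omega) (by omega))
  obtain ⟨E, hE1, hE2, hE3⟩ := hK₂ G k γ (FV ∪ D.vf k) (FC ∪ D.cf k) P uP hk hkn hγ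
    ((Nat.mul_le_mul_right _ (by omega)).trans hrt)
    (by
      intro c hc
      obtain ⟨h1, h2, h3, h4⟩ := hP c hc
      exact ⟨h1, h2, (Nat.mul_le_mul_right _ (by omega)).trans h3,
        (Nat.mul_le_mul_right _ (by omega)).trans h4⟩)
    (by omega) huP (by
      refine le_trans ?_ hn
      have g1 := Finset.card_union_le FV (D.vf k)
      have g2 := Finset.card_union_le FC (D.cf k)
      have g3 := D.card_vf_le k
      have g4 := D.card_cf_le k
      calc K₂ * ((FV ∪ D.vf k).card + (FC ∪ D.cf k).card + P.card + 1)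
          ≤ K₂ * (FV.card + FC.card + 5 * (K₁ * R.card) + P.card + 1) :=
            Nat.mul_le_mul_left _ (by omega)
        _ ≤ (K₁ + K₂ + 5 * K₂ * K₁) * (FV.card + FC.card + R.card + P.card + 1) := by
            have e : (K₁ + K₂ + 5 * K₂ * K₁) * (FV.card + FC.card + R.card + P.card + 1) =
              K₂ * (FV.card + FC.card + 5 * (K₁ * R.card) + P.card + 1) +
              (K₁ * (FV.card + FC.card + R.card + P.card + 1) + K₂ * R.card +
                5 * K₂ * K₁ * (FV.card + FC.card + P.card + 1)) := by ring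
            omega)
  refine ⟨D.add E, ?_, hD2.add hE2, ?_⟩
  · rw [Gad.add_size]
    have e : (K₁ + K₂ + 5 * K₂ * K₁) * (R.card + P.card) = K₁ * R.card + K₂ * P.card +
      (K₁ * P.card + K₂ * R.card + 5 * K₂ * K₁ * (R.card + P.card)) := by ring
    omega
  · intro R' P' hR' hP' hcR hcP
    rw [Gad.add_idx, Gad.add_V, Gad.add_C]
    have h1 := hD3 R' hR' hcR
    have h2 := hE3 P' hP' hcP
    have h3 := h1.add h2
    have e1 : D.V + E.V + R'.val = D.V + R'.val + E.V := by abel
    have e2 : D.C + E.C + prs γ P'.val = D.C + (E.C + prs γ P'.val) := by abel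
    rw [e1, e2]
    exact h3

end Pool.OM.H43
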