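import Pool.Agent.Work.MP_8d2cba_co_h18.Interface

/-! MP_8d2cba_co: block COMM (helper43). -/

set_option autoImplicit false

namespace Pool.OM.H43

open Finset Pool.OM

section words
variable {G : Type} [Group G]

/-- a list of elements of `T` with product `h`, of minimal length -/
def MinRep (T : Set G) (h : G) (L : List G) : Prop :=
  (∀ x ∈ L, x ∈ T) ∧ L.prod = h ∧
    ∀ L' : List G, (∀ x ∈ L', x ∈ T) → L'.prod = h → L.length ≤ L'.length

theorem exists_minRep (T : Set G) (hT : ∀ t ∈ T, t⁻¹ ∈ T) (h : G)
    (hh : h ∈ Subgroup.closure T) : ∃ L, MinRep T h L := by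
  classical
  have hex : ∃ n : ℕ, ∃ L : List G, (∀ x ∈ L, x ∈ T) ∧ L.prod = h ∧ L.length = n := by
    have hh' : h ∈ Submonoid.closure (T ∪ T⁻¹) := by
      rw [← Subgroup.closure_toSubmonoid]
      exact hh
    obtain ⟨L, hL, hp⟩ := Submonoid.exists_list_of_mem_closure hh'
    refine ⟨L.length, L, ?_, hp, rfl⟩
    intro x hx
    rcases hL x hx with h1 | h1
    · exact h1
    · have := hT _ h1
      simpa using this
  obtain ⟨L, h1, h2, h3⟩ := Nat.find_spec hex
  refine ⟨L, h1, h2, ?_⟩
  intro L' h1' h2'
  rw [h3]
  exact Nat.find_min' hex ⟨L', h1', h2', rfl⟩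

theorem MinRep.take_inj {T : Set G} {h : G} {L : List G}
    (hL : MinRep T h L) {i j : ℕ} (hj : j ≤ L.length) (hij : i < j)
    (he : (L.take i).prod = (L.take j).prod) : False := by
  have h1 : ∀ x ∈ L.take i ++ L.drop j, x ∈ T := by
    intro x hx
    rw [List.mem_append] at hx
    rcases hx with hx | hx
    · exact hL.1 x (List.mem_of_mem_take hx)
    · exact hL.1 x (List.mem_of_mem_drop hx)
  have h2 : (L.take i ++ L.drop j).prod = h := by
    rw [List.prod_append, he, ← List.prod_append, List.take_append_drop]
    exact hL.2.1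
  have h3 := hL.2.2 _ h1 h2
  rw [List.length_append, List.length_take, List.length_drop] at h3
  omega

theorem MinRep.take_mul_inj {T : Set G} (hT : ∀ t ∈ T, t⁻¹ ∈ T) {h : G} {L : List G}
    (hL : MinRep T h L) {i j : ℕ} (hj : j ≤ L.length) (hij : i + 3 ≤ j) {t t' : G}
    (ht : t ∈ T) (ht' : t' ∈ T)
    (he : (L.take i).prod * t = (L.take j).prod * t') : False := by
  have h1 : ∀ x ∈ L.take i ++ [t, t'⁻¹] ++ L.drop j, x ∈ T := by
    intro x hx
    rw [List.mem_append, List.mem_append] at hx
    rcases hx with (hx | hx) | hx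
    · exact hL.1 x (List.mem_of_mem_take hx)
    · simp only [List.mem_cons, List.not_mem_nil, or_false] at hx
      rcases hx with rfl | rfl
      · exact ht
      · exact hT _ ht'
    · exact hL.1 x (List.mem_of_mem_drop hx)
  have h2 : (L.take i ++ [t, t'⁻¹] ++ L.drop j).prod = h := by
    have h4 : (L.take i).prod * (t * t'⁻¹) = (L.take j).prod := by
      rw [← mul_assoc, he]; group
    rw [List.prod_append, List.prod_append]
    simp only [List.prod_cons, List.prod_nil, mul_one]
    rw [h4, ← List.prod_append, List.take_append_drop]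
    exact hL.2.1
  have h3 := hL.2.2 _ h1 h2
  simp only [List.length_append, List.length_take, List.length_drop, List.length_cons,
    List.length_nil] at h3
  omega

theorem MinRep.bound1 [Fintype G] {T : Finset G} (hT : ∀ t ∈ T, t⁻¹ ∈ T)
    {h : G} {L : List G} (hL : MinRep (T : Set G) h L) :
    (L.length / 3 + 1) * T.card ≤ Fintype.card G := by
  classical
  have h1 : ((Finset.range (L.length / 3 + 1)) ×ˢ T).card = (L.length / 3 + 1) * T.card := by
    rw [Finset.card_product, Finset.card_range]
  rw [← h1, ← Finset.card_univ]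
  apply Finset.card_le_card_of_injOn (fun p => (L.take (3 * p.1)).prod * p.2)
  · intro p _
    exact Finset.mem_coe.mpr (Finset.mem_univ _)
  · rintro ⟨i, t⟩ hp ⟨j, t'⟩ hq he
    rw [Finset.mem_coe, Finset.mem_product, Finset.mem_range] at hp hq
    dsimp only at hp hq he
    have hT' : ∀ t ∈ (T : Set G), t⁻¹ ∈ (T : Set G) := by
      intro t ht
      exact Finset.mem_coe.mpr (hT t (Finset.mem_coe.mp ht))
    rcases lt_trichotomy i j with hij | hij | hij
    · exact (hL.take_mul_inj hT' (i := 3 * i) (j := 3 * j) (by omega) (by omega)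
        (Finset.mem_coe.mpr hp.2) (Finset.mem_coe.mpr hq.2) he).elim
    · subst hij
      rw [Prod.mk.injEq]
      exact ⟨rfl, mul_left_cancel he⟩
    · exact (hL.take_mul_inj hT' (i := 3 * j) (j := 3 * i) (by omega) (by omega)
        (Finset.mem_coe.mpr hq.2) (Finset.mem_coe.mpr hp.2) he.symm).elim

theorem MinRep.bound2 {T : Set G} {h : G} {L : List G} (hL : MinRep T h L) (H : Subgroup G)
    [Finite H] (hH : ∀ t ∈ T, t ∈ H) : L.length ≤ Nat.card H := by
  classical
  haveI := Fintype.ofFinite H
  rw [Nat.card_eq_fintype_card, ← Finset.card_univ]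
  have hmem : ∀ i, (L.take i).prod ∈ H := by
    intro i
    apply Subgroup.list_prod_mem
    intro x hx
    exact hH x (hL.1 x (List.mem_of_mem_take hx))
  have h1 : (Finset.range L.length).card = L.length := Finset.card_range _
  rw [← h1]
  apply Finset.card_le_card_of_injOn (fun i => (⟨(L.take i).prod, hmem i⟩ : H))
  · intro p _
    exact Finset.mem_coe.mpr (Finset.mem_univ _)
  · intro i hi j hj he
    rw [Finset.mem_coe, Finset.mem_range] at hi hj
    have he' : (L.take i).prod = (L.take j).prod := congrArg Subtype.val he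
    rcases lt_trichotomy i j with hij | hij | hij
    · exact (hL.take_inj hj.le hij he').elim
    · exact hij
    · exact (hL.take_inj hi.le hij he'.symm).elim

end words

theorem stmt_COMM : Stmt_COMM := by
  intro K
  -- bound for the order of the commutator subgroup with fewer than 6K commutators
  set B : ℕ := ∑ j ∈ Finset.range (6 * K + 1), Subgroup.cardCommutatorBound j with hB
  refine ⟨K * B, ?_⟩
  intro G _ _ hN h hh
  classical
  set T : Finset G := univ.filter fun x => x ∈ commutatorSet G with hTdef
  have hTset : (T : Set G) = commutatorSet G := by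
    ext x
    simp [hTdef]
  have hTinv : ∀ t ∈ T, t⁻¹ ∈ T := by
    intro t ht
    rw [hTdef, Finset.mem_filter] at ht ⊢
    obtain ⟨a, b, rfl⟩ := ht.2
    exact ⟨Finset.mem_univ _, b, a, by rw [commutatorElement_inv]⟩
  have hcl : h ∈ Subgroup.closure (T : Set G) := by
    rw [hTset, ← commutator_eq_closure]
    exact hh
  obtain ⟨L, hL⟩ := exists_minRep (T : Set G)
    (fun t ht => Finset.mem_coe.mpr (hTinv t (Finset.mem_coe.mp ht))) h hcl
  have hlen : K * L.length ≤ Fintype.card G := by
    by_cases hc : 6 * K ≤ T.card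
    · have h1 := hL.bound1 hTinv
      have h2 : L.length < 3 * (L.length / 3 + 1) := by omega
      have h3 : (L.length / 3 + 1) * (6 * K) ≤ (L.length / 3 + 1) * T.card :=
        Nat.mul_le_mul_left _ hc
      have h4 : K * L.length ≤ K * (3 * (L.length / 3 + 1)) := Nat.mul_le_mul_left _ h2.le
      have h5 : K * (3 * (L.length / 3 + 1)) ≤ (L.length / 3 + 1) * (6 * K) := by
        have : (L.length / 3 + 1) * (6 * K) = 2 * (K * (3 * (L.length / 3 + 1))) := by ring
        omega
      omega
    · push Not at hc
      have h1 : L.length ≤ Nat.card (commutator G) := by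
        apply hL.bound2 (commutator G)
        intro t ht
        rw [hTset] at ht
        rw [commutator_eq_closure]
        exact Subgroup.subset_closure ht
      have h2 := Subgroup.card_commutator_le_of_finite_commutatorSet (G := G)
      have h3 : Nat.card (commutatorSet G) = T.card := by
        rw [← hTset]
        simp
      rw [h3] at h2
      have h4 : Subgroup.cardCommutatorBound T.card ≤ B := by
        rw [hB]
        apply Finset.single_le_sum (f := fun j => Subgroup.cardCommutatorBound j)
          (fun _ _ => Nat.zero_le _)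
        rw [Finset.mem_range]
        omega
      exact (Nat.mul_le_mul_left K (h1.trans (h2.trans h4))).trans hN
  -- pairs
  have hpair : ∀ x ∈ L, ∃ p : G × G, p.1 * p.2 * p.1⁻¹ * p.2⁻¹ = x := by
    intro x hx
    have h1 := hL.1 x hx
    rw [hTset] at h1
    obtain ⟨a, b, rfl⟩ := h1
    exact ⟨(a, b), rfl⟩
  choose! f hf using hpair
  refine ⟨L.map f, by simpa using hlen, ?_⟩
  rw [List.map_map]
  rw [← hL.2.1]
  congr 1
  conv_rhs => rw [← List.map_id L]
  apply List.map_congr_left
  intro x hx
  exact hf x hx

end Pool.OM.H43
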