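import Pool.Agent.Work.MP_8d2cba_co_h18.Interface

/-! MP_8d2cba_co: block HP (helper43). -/

set_option autoImplicit false

namespace Pool.OM.H43

open Finset Pool.OM

theorem prod_hom {G B : Type} [Group G] [Fintype G] [CommGroup B] [Fintype B]
    (φ : G →* B) (hφ : Function.Surjective φ) :
    ∏ g : G, φ g = (∏ b : B, b) ^ Nat.card φ.ker := by
  classical
  rw [← Finset.prod_fiberwise (s := (univ : Finset G)) (g := φ)]
  rw [← Finset.prod_pow]
  apply Finset.prod_congr rfl
  intro b _
  rw [Finset.prod_congr rfl (g := fun _ => b)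
    (fun x hx => (Finset.mem_filter.mp hx).2), Finset.prod_const]
  congr 1
  have h1 := MonoidHom.card_fiber_eq_of_mem_range φ (x := b) (y := 1) (hφ b) ⟨1, map_one φ⟩
  rw [h1, Nat.card_eq_fintype_card, Fintype.card_subtype]
  congr 1
  ext x
  simp only [Finset.mem_filter, Finset.mem_univ, true_and, MonoidHom.mem_ker]

theorem prod_sq {B : Type} [CommGroup B] [Fintype B] :
    (∏ b : B, b) * (∏ b : B, b) = 1 := by
  have h1 : (∏ b : B, b⁻¹) = ∏ b : B, b := by
    exact Fintype.prod_equiv (Equiv.inv B) _ _ (fun x => rfl)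
  rw [Finset.prod_inv_distrib] at h1
  nth_rewrite 1 [← h1]
  simp

theorem prod_inv_unique {B : Type} [CommGroup B] [Fintype B] (hP : (∏ b : B, b) ≠ 1)
    (s : B) (hs : s * s = 1) (hs1 : s ≠ 1) : s = ∏ b : B, b := by
  classical
  haveI : Fintype (B ⧸ Subgroup.zpowers s) := Fintype.ofFinite _
  have hord : orderOf s = 2 := by
    apply orderOf_eq_prime
    · rw [pow_two]; exact hs
    · exact hs1
  have h1 := prod_hom (QuotientGroup.mk' (Subgroup.zpowers s))
    (QuotientGroup.mk'_surjective _)
  rw [QuotientGroup.ker_mk', Nat.card_zpowers, hord, pow_two, prod_sq] at h1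
  rw [← map_prod] at h1
  have h2 : (∏ b : B, b) ∈ Subgroup.zpowers s := by
    rw [← QuotientGroup.ker_mk' (Subgroup.zpowers s), MonoidHom.mem_ker]
    exact h1
  rw [Subgroup.mem_zpowers_iff] at h2
  obtain ⟨k, hk⟩ := h2
  rcases Int.even_or_odd' k with ⟨c, hc | hc⟩
  · exfalso
    apply hP
    rw [← hk, hc, zpow_mul]
    have : s ^ (2 : ℤ) = 1 := by
      rw [zpow_ofNat, pow_two]; exact hs
    rw [this, one_zpow]
  · rw [← hk, hc, zpow_add, zpow_mul]
    have : s ^ (2 : ℤ) = 1 := by
      rw [zpow_ofNat, pow_two]; exact hs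
    rw [this, one_zpow]
    simp

theorem card_pow_le {H : Type} [Group H] [Fintype H] [DecidableEq H]
    (hcomm : ∀ x y : H, x * y = y * x) (hinv : ∀ s t : H, s * s = 1 → t * t = 1 → s ≠ 1 → t ≠ 1 →
      s = t) : ∀ k : ℕ, (univ.filter fun x : H => x ^ (2 ^ k) = 1).card ≤ 2 ^ k := by
  intro k
  induction k with
  | zero =>
    simp only [pow_zero, pow_one]
    rw [Finset.card_le_one]
    intro a ha b hb
    simp only [Finset.mem_filter, Finset.mem_univ, true_and] at ha hb
    rw [ha, hb]
  | succ k ih =>
    have h1 : (univ.filter fun x : H => x ^ (2 ^ (k + 1)) = 1).card ≤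
        2 * ((univ.filter fun x : H => x ^ (2 ^ k) = 1)).card := by
      apply Finset.card_le_mul_card_image_of_maps_to (f := fun x => x * x)
      · intro x hx
        rw [Finset.mem_filter] at hx ⊢
        refine ⟨Finset.mem_univ _, ?_⟩
        rw [← pow_two, ← pow_mul, ← pow_succ']
        exact hx.2
      · intro b hb
        -- fibre over b has at most two elements
        by_contra hlt
        push Not at hlt
        rw [Finset.two_lt_card] at hlt
        obtain ⟨x, hx, y, hy, z, hz, hxy, hxz, hyz⟩ := hlt
        simp only [Finset.mem_filter, Finset.mem_univ, true_and] at hx hy hz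
        have key : ∀ u v : H, u * u = v * v → (u * v⁻¹) * (u * v⁻¹) = 1 := by
          intro u v h
          have h3 : v⁻¹ * u = u * v⁻¹ := hcomm _ _
          calc (u * v⁻¹) * (u * v⁻¹) = u * (v⁻¹ * u) * v⁻¹ := by group
            _ = u * u * v⁻¹ * v⁻¹ := by rw [h3]; group
            _ = 1 := by rw [h]; group
        have e1 := key x y (hx.2.trans hy.2.symm)
        have e2 := key x z (hx.2.trans hz.2.symm)
        have n1 : x * y⁻¹ ≠ 1 := fun h => hxy (mul_inv_eq_one.mp h)
        have n2 : x * z⁻¹ ≠ 1 := fun h => hxz (mul_inv_eq_one.mp h)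
        have e3 := hinv _ _ e1 e2 n1 n2
        exact hyz (inv_injective (mul_left_cancel e3))
    calc _ ≤ _ := h1
      _ ≤ 2 * 2 ^ k := Nat.mul_le_mul_left _ ih
      _ = 2 ^ (k + 1) := by rw [pow_succ]; ring

theorem cyclic_of_unique {H : Type} [Group H] [Fintype H]
    (hp : IsPGroup 2 H)
    (hcomm : ∀ x y : H, x * y = y * x) (hinv : ∀ s t : H, s * s = 1 → t * t = 1 → s ≠ 1 → t ≠ 1 →
      s = t) : IsCyclic H := by
  classical
  haveI : Fact (Nat.Prime 2) := ⟨Nat.prime_two⟩
  obtain ⟨r, hr⟩ := IsPGroup.iff_card.mp hp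
  rcases Nat.eq_zero_or_pos r with h0 | h0
  · subst h0
    rw [pow_zero] at hr
    haveI : Subsingleton H := (Nat.card_eq_one_iff_unique.mp hr).1
    infer_instance
  · obtain ⟨m, rfl⟩ : ∃ m, r = m + 1 := ⟨r - 1, by omega⟩
    have h1 := card_pow_le hcomm hinv m
    have h2 : ∃ x : H, ¬ x ^ 2 ^ m = 1 := by
      by_contra h
      push Not at h
      rw [Finset.filter_true_of_mem (fun x _ => h x), Finset.card_univ,
        ← Nat.card_eq_fintype_card, hr, pow_succ] at h1
      have : 0 < 2 ^ m := by positivity
      omega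
    obtain ⟨x, hx⟩ := h2
    have h3 : x ^ 2 ^ (m + 1) = 1 := by
      rw [← hr]
      exact pow_card_eq_one'
    exact isCyclic_of_orderOf_eq_card x (by rw [hr]; exact orderOf_eq_prime_pow hx h3)

theorem stmt_HP : Stmt_HP := by
  intro G _ _ hG
  classical
  haveI : Fact (Nat.Prime 2) := ⟨Nat.prime_two⟩
  haveI : Fintype (Abelianization G) := Fintype.ofFinite _
  have hsurj : Function.Surjective (Abelianization.of : G →* Abelianization G) :=
    QuotientGroup.mk'_surjective _
  rw [prod_hom Abelianization.of hsurj]
  rcases Nat.even_or_odd' (Nat.card (Abelianization.of : G →* Abelianization G).ker) with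
    ⟨c, hc | hc⟩
  · rw [hc, pow_mul, pow_two, prod_sq, one_pow]
  · by_contra hP
    have hP' : (∏ b : Abelianization G, b) ≠ 1 := by
      intro h
      apply hP
      rw [h, one_pow]
    obtain ⟨S⟩ : Nonempty (Sylow 2 G) := inferInstance
    -- the restriction to S is injective
    have hinj : ∀ x : G, x ∈ S → Abelianization.of x = 1 → x = 1 := by
      intro x hx hx1
      have h1 : orderOf x ∣ Nat.card (Abelianization.of : G →* Abelianization G).ker := by
        have h2 : x ∈ (Abelianization.of : G →* Abelianization G).ker := hx1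
        have h3 := orderOf_dvd_natCard (⟨x, h2⟩ : (Abelianization.of : G →* Abelianization G).ker)
        rwa [← Subgroup.orderOf_coe] at h3
      obtain ⟨k, hk⟩ := S.isPGroup' ⟨x, hx⟩
      have h4 : orderOf x ∣ 2 ^ k := by
        apply orderOf_dvd_of_pow_eq_one
        have := congrArg Subtype.val hk
        simpa using this
      have h5 : Nat.Coprime (2 ^ k) (Nat.card (Abelianization.of : G →* Abelianization G).ker) := by
        apply Nat.Coprime.pow_left
        rw [hc]
        rw [Nat.coprime_two_left]
        exact ⟨c, rfl⟩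
      have h6 : orderOf x = 1 := Nat.eq_one_of_dvd_coprimes h5 h4 h1
      exact orderOf_eq_one_iff.mp h6
    have hcomm : ∀ x y : (S : Subgroup G), x * y = y * x := by
      intro x y
      have h1 : (x * y * (y * x)⁻¹ : (S : Subgroup G)) = 1 := by
        apply Subtype.ext
        apply hinj _ (x * y * (y * x)⁻¹ : (S : Subgroup G)).2
        simp only [Subgroup.coe_mul, Subgroup.coe_inv, map_mul, map_inv]
        rw [mul_comm (Abelianization.of (y : G)) (Abelianization.of (x : G))]
        simp
      exact mul_inv_eq_one.mp h1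
    have hinv : ∀ s t : (S : Subgroup G), s * s = 1 → t * t = 1 → s ≠ 1 → t ≠ 1 → s = t := by
      intro s t hs ht hs1 ht1
      have key : ∀ u : (S : Subgroup G), u * u = 1 → u ≠ 1 →
          Abelianization.of (u : G) = ∏ b : Abelianization G, b := by
        intro u hu hu1
        apply prod_inv_unique hP'
        · rw [← map_mul]
          have := congrArg Subtype.val hu
          simp only [Subgroup.coe_mul, Subgroup.coe_one] at this
          rw [this, map_one]
        · intro h
          apply hu1
          exact Subtype.ext (hinj _ u.2 h)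
      have h1 := (key s hs hs1).trans (key t ht ht1).symm
      have h2 : (s * t⁻¹ : (S : Subgroup G)) = 1 := by
        apply Subtype.ext
        apply hinj _ (s * t⁻¹ : (S : Subgroup G)).2
        simp [h1]
      exact mul_inv_eq_one.mp h2
    haveI : Fintype (S : Subgroup G) := Fintype.ofFinite _
    have hcyc : IsCyclic (S : Subgroup G) := cyclic_of_unique S.isPGroup' hcomm hinv
    rcases hG S with h | h
    · -- S trivial but 2 divides the order
      have h1 : 2 ∣ Nat.card G := by
        have h2 : orderOf (∏ b : Abelianization G, b) = 2 :=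
          orderOf_eq_prime (by rw [pow_two]; exact prod_sq) hP'
        have h3 : 2 ∣ Nat.card (Abelianization G) := by
          rw [← h2]
          exact orderOf_dvd_natCard _
        exact h3.trans (Subgroup.card_dvd_of_surjective _ hsurj)
      have h2 : Nat.card (S : Subgroup G) = 1 := by
        rw [h]; simp
      have h3 := S.card_eq_multiplicity
      rw [h2] at h3
      have h4 : (Nat.card G).factorization 2 ≠ 0 := by
        have h5 : Nat.card G ≠ 0 := Nat.card_pos.ne'
        have := (Nat.Prime.dvd_iff_one_le_factorization Nat.prime_two h5).mp h1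
        omega
      have h5 : 1 < 2 ^ (Nat.card G).factorization 2 := Nat.one_lt_pow h4 (by norm_num)
      omega
    · exact h hcyc

end Pool.OM.H43
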