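import Pool.Agent.Work.MP_8d2cba_co_h18.Interface

/-! MP_8d2cba_co: blocks GA, RT, HP, COMM (helper43). -/

set_option autoImplicit false

namespace Pool.OM.H43

open Finset Pool.OM

theorem sum_rt {G : Type} [Group G] [Fintype G] [DecidableEq G] (T : Finset G) :
    ∑ g ∈ T, rt g ≤ Fintype.card G := by
  classical
  unfold rt
  rw [← Finset.card_biUnion]
  · exact Finset.card_le_univ _
  · intro a _ b _ hab
    rw [Function.onFun, Finset.disjoint_left]
    intro x hx hx'
    simp only [Finset.mem_filter, Finset.mem_univ, true_and] at hx hx'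
    exact hab (hx.symm.trans hx')

theorem stmt_GA : Stmt_GA := by
  intro G _ _ _
  by_cases h1 : rt (1 : G) * rt (1 : G) ≤ Fintype.card G
  · exact ⟨1, by simp, h1⟩
  push Not at h1
  set T : Finset G := univ.filter fun x : G => x * x = 1 with hT
  have hcard : T.card = rt (1 : G) := rfl
  have hpos : 0 < T.card := by
    apply Finset.card_pos.mpr
    exact ⟨1, by simp [hT]⟩
  have hne : T.Nonempty := Finset.card_pos.mp hpos
  obtain ⟨g, hg, hgm⟩ := Finset.exists_min_image T (fun g => rt g) hne
  refine ⟨g, by simpa [hT] using hg, ?_⟩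
  have h2 : T.card * rt g ≤ Fintype.card G := by
    calc T.card * rt g = ∑ _x ∈ T, rt g := by simp
      _ ≤ ∑ x ∈ T, rt x := Finset.sum_le_sum fun x hx => hgm x hx
      _ ≤ _ := sum_rt T
  rw [hcard] at h2
  by_contra h3
  push Not at h3
  -- rt g ^2 > n, (rt 1)^2 > n, rt 1 * rt g ≤ n
  have h4 : Fintype.card G * Fintype.card G < (rt (1 : G) * rt (1 : G)) * (rt g * rt g) :=
    Nat.mul_lt_mul'' h1 h3
  have h5 : (rt (1 : G) * rt (1 : G)) * (rt g * rt g) =
      (rt (1 : G) * rt g) * (rt (1 : G) * rt g) := by ring
  have h6 := Nat.mul_le_mul h2 h2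
  omega

theorem stmt_RT : Stmt_RT := by
  intro G _ _ _ d hd
  by_contra hlt
  push Not at hlt
  set B : Finset G := univ.filter fun x : G => x * x ≠ d with hB
  have hn : 0 < Fintype.card G := Fintype.card_pos
  -- for each y the set of x with x*x = d and (x*y)*(x*y) = d is large
  have key : ∀ y : G, Fintype.card G < 2 *
      (univ.filter fun x : G => x⁻¹ * y * x = y⁻¹).card := by
    intro y
    have hsub : (univ : Finset G) ⊆ (univ.filter fun x : G => x⁻¹ * y * x = y⁻¹) ∪
        (B ∪ B.image fun x => x * y⁻¹) := by
      intro x _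
      by_cases hx : x ∈ B
      · simp [hx]
      by_cases hx' : x * y ∈ B
      · apply Finset.mem_union_right
        apply Finset.mem_union_right
        rw [Finset.mem_image]
        exact ⟨x * y, hx', by group⟩
      · apply Finset.mem_union_left
        simp only [hB, Finset.mem_filter, Finset.mem_univ, true_and, not_not] at hx hx' ⊢
        have h1 : x * y * (x * y) = x * x := by rw [hx', hx]
        have h2 : y * (x * y) = x := by
          apply mul_left_cancel (a := x)
          rw [← mul_assoc]; exact h1
        calc x⁻¹ * y * x = x⁻¹ * (y * (x * y)) * y⁻¹ := by group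
          _ = y⁻¹ := by rw [h2]; group
    have h1 := Finset.card_le_card hsub
    have h2 := Finset.card_union_le (univ.filter fun x : G => x⁻¹ * y * x = y⁻¹)
      (B ∪ B.image fun x => x * y⁻¹)
    have h3 := Finset.card_union_le B (B.image fun x => x * y⁻¹)
    have h4 : (B.image fun x => x * y⁻¹).card ≤ B.card := Finset.card_image_le
    rw [Finset.card_univ] at h1
    omega
  -- the centralizer of y has more than n/2 elements
  have hcent : ∀ y : G, ∀ x : G, x * y = y * x := by
    intro y
    have hne : (univ.filter fun x : G => x⁻¹ * y * x = y⁻¹).Nonempty := by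
      apply Finset.card_pos.mp
      have := key y
      omega
    obtain ⟨x₀, hx₀⟩ := hne
    simp only [Finset.mem_filter, Finset.mem_univ, true_and] at hx₀
    classical
    have hcard : (univ.filter fun x : G => x⁻¹ * y * x = y⁻¹).card ≤
        Nat.card (Subgroup.centralizer ({y} : Set G)) := by
      rw [Nat.card_eq_fintype_card, Fintype.card_subtype]
      apply Finset.card_le_card_of_injOn (fun x => x * x₀⁻¹)
      · intro x hx
        simp only [Finset.coe_filter, Finset.mem_univ, true_and, Set.mem_setOf_eq] at hx
        simp only [Finset.coe_filter, Finset.mem_univ, true_and, Set.mem_setOf_eq]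
        rw [Subgroup.mem_centralizer_singleton_iff]
        have h1 : x⁻¹ * y * x = x₀⁻¹ * y * x₀ := by rw [hx, hx₀]
        have h2 : y * (x * x₀⁻¹) = x * (x⁻¹ * y * x) * x₀⁻¹ := by group
        have h3 : x * x₀⁻¹ * y = x * (x₀⁻¹ * y * x₀) * x₀⁻¹ := by group
        rw [h3, ← h1, ← h2]
      · intro a _ b _ hab
        exact mul_right_cancel hab
    have hidx : (Subgroup.centralizer ({y} : Set G)).index = 1 := by
      have h1 := (Subgroup.centralizer ({y} : Set G)).card_mul_index
      have h2 := key y
      rw [Nat.card_eq_fintype_card (α := G)] at h1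
      have h3 : (Subgroup.centralizer ({y} : Set G)).index ≠ 0 := by
        intro h0
        rw [h0] at h1
        omega
      by_contra hne
      have h4 : 2 ≤ (Subgroup.centralizer ({y} : Set G)).index := by omega
      have h5 := Nat.mul_le_mul_left (Nat.card (Subgroup.centralizer ({y} : Set G))) h4
      omega
    intro x
    have h1 : Subgroup.centralizer ({y} : Set G) = ⊤ := Subgroup.index_eq_one.mp hidx
    have h2 : x ∈ Subgroup.centralizer ({y} : Set G) := by rw [h1]; trivial
    rw [Subgroup.mem_centralizer_singleton_iff] at h2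
    exact h2
  have hsq : ∀ y : G, y * y = 1 := by
    intro y
    have hne : (univ.filter fun x : G => x⁻¹ * y * x = y⁻¹).Nonempty := by
      apply Finset.card_pos.mp
      have := key y
      omega
    obtain ⟨x₀, hx₀⟩ := hne
    simp only [Finset.mem_filter, Finset.mem_univ, true_and] at hx₀
    have h1 : x₀⁻¹ * y * x₀ = y := by
      rw [mul_assoc, ← hcent y x₀]; group
    rw [h1] at hx₀
    nth_rewrite 1 [hx₀]
    simp
  apply hd
  -- some x with x*x = d
  have : B ≠ univ := by
    intro h
    rw [h, Finset.card_univ] at hlt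
    omega
  obtain ⟨x, hx⟩ : ∃ x, x ∉ B := by
    by_contra h
    push Not at h
    exact this (Finset.eq_univ_of_forall h)
  simp only [hB, Finset.mem_filter, Finset.mem_univ, true_and, not_not] at hx
  rw [← hx, hsq]

end Pool.OM.H43
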