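import Pool.Agent.Work.MP_8d2cba_co_h18.Basic
import Pool.Agent.Work.MP_8d2cba_co_helper43.GAHP

/-! MP_8d2cba_co: block PRE (helper43). -/

set_option autoImplicit false

namespace Pool.OM.H43

open Finset Pool.OM

section one
variable {G : Type} [Group G] [Fintype G] [DecidableEq G]

/-- greedy choice in a set `S`: finitely many injective functions must avoid finite sets -/
theorem exists_avoid (S : Finset G) (L : List ((G → G) × Finset G))
    (hinj : ∀ a ∈ L, Function.Injective a.1)
    (hc : (L.map fun a => a.2.card).sum < S.card) :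
    ∃ x ∈ S, ∀ a ∈ L, a.1 x ∉ a.2 := by
  induction L generalizing S with
  | nil =>
    simp only [List.map_nil, List.sum_nil] at hc
    obtain ⟨x, hx⟩ := Finset.card_pos.mp hc
    exact ⟨x, hx, by simp⟩
  | cons a L ih =>
    rw [List.map_cons, List.sum_cons] at hc
    have h1 : (S.filter fun x => a.1 x ∈ a.2).card ≤ a.2.card := by
      apply Finset.card_le_card_of_injOn a.1
      · intro x hx
        rw [Finset.mem_coe, Finset.mem_filter] at hx
        exact Finset.mem_coe.mpr hx.2
      · exact (hinj a (List.mem_cons_self)).injOn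
    have h2 : (S.filter fun x => a.1 x ∈ a.2).card + (S.filter fun x => ¬ a.1 x ∈ a.2).card
        = S.card := Finset.card_filter_add_card_filter_not _
    obtain ⟨x, hx, hx'⟩ := ih (S.filter fun x => ¬ a.1 x ∈ a.2)
      (fun b hb => hinj b (List.mem_cons_of_mem _ hb)) (by omega)
    rw [Finset.mem_filter] at hx
    refine ⟨x, hx.1, ?_⟩
    intro b hb
    rcases List.mem_cons.mp hb with rfl | hb
    · exact hx.2
    · exact hx' b hb

/-- one bad colour, `k = 3` -/
theorem pre_three (FV FC : Finset G) (hn : 40 * (FV.card + FC.card + 1) ≤ Fintype.card G)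
    (d : G) (hd : d ≠ 1) (hdC : d ∉ FC) : ∃ E : Gad G, E.size ≤ 6 ∧ Fresh 3 FV FC E ∧
      MS E.idx E.V E.C ∧ d ∈ E.C := by
  -- choose x = a d
  obtain ⟨x, hxS, hx⟩ := exists_avoid (univ.filter fun x : G => x * x ≠ d)
    [((fun x : G => x * d⁻¹), ({1, d} ∪ FC : Finset G)), ((fun x : G => x⁻¹), ({1, d} ∪ FC : Finset G))]
    (by
      intro a ha
      simp only [List.mem_cons, List.not_mem_nil, or_false] at ha
      rcases ha with rfl | rfl
      · exact mul_left_injective _
      · exact inv_injective)
    (by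
      have h1 := stmt_RT G d hd
      have h2 : ({1, d} ∪ FC : Finset G).card ≤ 2 + FC.card :=
        (Finset.card_union_le _ _).trans (Nat.add_le_add_right Finset.card_le_two _)
      simp only [List.map_cons, List.map_nil, List.sum_cons, List.sum_nil]
      omega)
  simp only [List.mem_cons, List.not_mem_nil, or_false, forall_eq_or_imp, forall_eq,
    Finset.mem_union, Finset.mem_insert, Finset.mem_singleton, not_or] at hx
  rw [Finset.mem_filter] at hxS
  obtain ⟨⟨⟨ha1, had⟩, haC⟩, ⟨hx1, hxd⟩, hxC⟩ := hx
  obtain ⟨s, -, hs⟩ := exists_avoid (univ : Finset G)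
    [((fun s : G => s), FV), ((fun s : G => s * (x * d⁻¹)), FV), ((fun s : G => s * x), FV)]
    (by
      intro a ha
      simp only [List.mem_cons, List.not_mem_nil, or_false] at ha
      rcases ha with rfl | rfl | rfl
      · exact fun _ _ h => h
      · exact mul_left_injective _
      · exact mul_left_injective _)
    (by
      rw [Finset.card_univ]
      simp only [List.map_cons, List.map_nil, List.sum_cons, List.sum_nil]
      omega)
  simp only [List.mem_cons, List.not_mem_nil, or_false, forall_eq_or_imp, forall_eq] at hs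
  obtain ⟨hs1, hs2, hs3⟩ := hs
  have hx1' : x ≠ 1 := fun h => hx1 (by rw [h]; simp)
  refine ⟨⟨{(s, s, 1)}, {s * (x * d⁻¹), s * x}, {x * d⁻¹, d, x⁻¹}⟩, ?_, ⟨?_, ?_, ?_, ?_, ?_, ?_⟩,
    ?_, ?_⟩
  · simp [Gad.size]
  · intro _ i hi
    simp only [Multiset.mem_singleton] at hi
    rw [hi]
  · simp only [Gad.verts, Multiset.singleton_bind, jl]
    simp only [if_true]
    have e1 : ({s * (x * d⁻¹), s * x} : Multiset G) + {s} =
      s ::ₘ s * (x * d⁻¹) ::ₘ {s * x} := by
      rw [add_comm]; rfl
    rw [e1, Multiset.nodup_cons, Multiset.nodup_cons]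
    refine ⟨?_, ?_, Multiset.nodup_singleton _⟩
    · simp only [Multiset.mem_cons, Multiset.mem_singleton, not_or]
      refine ⟨fun h => ha1 ?_, fun h => hx1' ?_⟩
      · exact (left_eq_mul.mp h)
      · exact (left_eq_mul.mp h)
    · simp only [Multiset.mem_singleton]
      intro h
      have h2 := mul_left_cancel h
      apply hd
      have h3 : d⁻¹ = 1 := by
        have : x * d⁻¹ = x * 1 := by rw [h2, mul_one]
        exact mul_left_cancel this
      simpa using h3
  · intro y hy
    simp only [Gad.verts, Multiset.singleton_bind, jl, if_true, Multiset.mem_add,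
      Multiset.insert_eq_cons, Multiset.mem_cons, Multiset.mem_singleton] at hy
    rcases hy with (rfl | rfl) | rfl
    · exact hs2
    · exact hs3
    · exact hs1
  · simp only [Gad.cols, Multiset.singleton_bind, tl]
    norm_num
    refine ⟨⟨had, ?_⟩, fun h => hxd h.symm⟩
    intro h
    apply hxS.2
    have h2 : x = x⁻¹ * d := by
      rw [← h]; group
    calc x * x = x * (x⁻¹ * d) := by rw [← h2]
      _ = d := by group
  · intro c hc
    simp only [Gad.cols, Multiset.singleton_bind, tl] at hc
    norm_num at hc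
    rcases hc with rfl | rfl | rfl
    · exact haC
    · exact hdC
    · exact hxC
  · intro c hc
    simp only [Gad.cols, Multiset.singleton_bind, tl] at hc
    norm_num at hc
    rcases hc with rfl | rfl | rfl
    · exact ha1
    · exact hd
    · exact hx1
  · simp only [Gad.idx, Multiset.map_singleton, sidx]
    have := MS.three s s (s * (x * d⁻¹)) (s * x)
    have e1 : s⁻¹ * (s * (x * d⁻¹)) = x * d⁻¹ := by group
    have e2 : (s * (x * d⁻¹))⁻¹ * (s * x) = d := by group
    have e3 : (s * x)⁻¹ * s = x⁻¹ := by group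
    rw [e1, e2, e3] at this
    exact this
  · simp

/-- one bad colour, `k ≥ 4` -/
theorem pre_four (hCL : Stmt_CLOSE) : ∃ K : ℕ, ∀ (G : Type) [Group G] [Fintype G] [DecidableEq G]
    (k : ℕ) (FV FC : Finset G), 4 ≤ k → k ∣ Fintype.card G - 1 →
    K * (FV.card + FC.card + 1) ≤ Fintype.card G →
    ∀ d : G, d ≠ 1 → d ∉ FC → ∃ E : Gad G, E.size ≤ 6 ∧ Fresh k FV FC E ∧
      MS E.idx E.V E.C ∧ d ∈ E.C := by
  obtain ⟨K, hK⟩ := hCL
  refine ⟨7 * K + 40, ?_⟩
  intro G _ _ _ k FV FC hk hkn hn d hd hdC
  have hn40 : 40 * (FV.card + FC.card + 1) ≤ Fintype.card G := by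
    refine le_trans ?_ hn
    exact Nat.mul_le_mul_right _ (by omega)
  obtain ⟨a, -, ha⟩ := exists_avoid (univ : Finset G)
    [((fun a : G => a), ({1, d} ∪ FC : Finset G)), ((fun a : G => a * d), ({1} : Finset G))]
    (by
      intro a ha
      simp only [List.mem_cons, List.not_mem_nil, or_false] at ha
      rcases ha with rfl | rfl
      · exact fun _ _ h => h
      · exact mul_left_injective _)
    (by
      rw [Finset.card_univ]
      have h2 : ({1, d} ∪ FC : Finset G).card ≤ 2 + FC.card :=
        (Finset.card_union_le _ _).trans (Nat.add_le_add_right Finset.card_le_two _)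
      simp only [List.map_cons, List.map_nil, List.sum_cons, List.sum_nil,
        Finset.card_singleton]
      omega)
  simp only [List.mem_cons, List.not_mem_nil, or_false, forall_eq_or_imp, forall_eq,
    Finset.mem_union, Finset.mem_insert, Finset.mem_singleton, not_or] at ha
  obtain ⟨⟨⟨ha1, had⟩, haC⟩, had1⟩ := ha
  obtain ⟨s, -, hs⟩ := exists_avoid (univ : Finset G)
    [((fun s : G => s), FV), ((fun s : G => s * a), FV), ((fun s : G => s * (a * d)), FV)]
    (by
      intro a ha
      simp only [List.mem_cons, List.not_mem_nil, or_false] at ha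
      rcases ha with rfl | rfl | rfl
      · exact fun _ _ h => h
      · exact mul_left_injective _
      · exact mul_left_injective _)
    (by
      rw [Finset.card_univ]
      simp only [List.map_cons, List.map_nil, List.sum_cons, List.sum_nil]
      omega)
  simp only [List.mem_cons, List.not_mem_nil, or_false, forall_eq_or_imp, forall_eq] at hs
  obtain ⟨hs1, hs2, hs3⟩ := hs
  obtain ⟨t, τ, h1, h2, h3, h4⟩ := hK G k (FV ∪ {s, s * a, s * (a * d)}) (FC ∪ {a, d}) hk hkn 1
    (fun _ => s) (fun _ => s * (a * d)) (by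
      have e1 : (FV ∪ {s, s * a, s * (a * d)}).card ≤ FV.card + 3 :=
        (Finset.card_union_le _ _).trans (Nat.add_le_add_left Finset.card_le_three _)
      have e2 : (FC ∪ {a, d}).card ≤ FC.card + 2 :=
        (Finset.card_union_le _ _).trans (Nat.add_le_add_left Finset.card_le_two _)
      refine le_trans ?_ hn
      calc K * ((FV ∪ {s, s * a, s * (a * d)}).card + (FC ∪ {a, d}).card + 1 + 1)
          ≤ K * (7 * (FV.card + FC.card + 1)) := Nat.mul_le_mul_left _ (by omega)
        _ ≤ (7 * K + 40) * (FV.card + FC.card + 1) := by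
          have : K * (7 * (FV.card + FC.card + 1)) = (7 * K) * (FV.card + FC.card + 1) := by ring
          rw [this]
          exact Nat.mul_le_mul_right _ (by omega))
  have h1' : (if k = 5 then ({t 0, τ 0} : Multiset G) else {t 0}).Nodup := by
    simpa using h1
  have h3' : (((s * (a * d))⁻¹ * t 0) ::ₘ tl k (s, t 0, τ 0)).Nodup := by
    simpa using h3
  have h2' := h2 0
  have h4' := h4 0
  simp only [Finset.mem_union, Finset.mem_insert, Finset.mem_singleton, not_or] at h2' h4'
  obtain ⟨⟨ht0, ht1, ht2, ht3⟩, hτ0, hτ1, hτ2, hτ3⟩ := h2'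
  have hsa : s ≠ s * a := fun h => ha1 (left_eq_mul.mp h)
  have hsad : s ≠ s * (a * d) := fun h => had1 (left_eq_mul.mp h)
  have hsasad : s * a ≠ s * (a * d) := by
    intro h
    have h5 := mul_left_cancel h
    exact hd (left_eq_mul.mp h5)
  have hcols : ∀ c ∈ (⟨{(s, t 0, τ 0)}, {s * a, s * (a * d)},
      {a, d, (s * (a * d))⁻¹ * t 0}⟩ : Gad G).cols k, c = a ∨ c = d ∨
      c ∈ ((s * (a * d))⁻¹ * t 0) ::ₘ tl k (s, t 0, τ 0) := by
    intro c hc
    simp only [Gad.cols, Multiset.singleton_bind, Multiset.mem_add,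
      Multiset.insert_eq_cons, Multiset.mem_cons, Multiset.mem_singleton] at hc ⊢
    tauto
  refine ⟨⟨{(s, t 0, τ 0)}, {s * a, s * (a * d)}, {a, d, (s * (a * d))⁻¹ * t 0}⟩, ?_,
    ⟨?_, ?_, ?_, ?_, ?_, ?_⟩, ?_, ?_⟩
  · simp [Gad.size]
  · intro h; omega
  · -- vertices
    have e1 : (⟨{(s, t 0, τ 0)}, {s * a, s * (a * d)},
      {a, d, (s * (a * d))⁻¹ * t 0}⟩ : Gad G).verts k =
      s ::ₘ (s * a) ::ₘ (s * (a * d)) ::ₘ
        (if k = 5 then ({t 0, τ 0} : Multiset G) else {t 0}) := by
      have hk3 : k ≠ 3 := by omega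
      simp only [Gad.verts, Multiset.singleton_bind, jl, hk3, if_false]
      split_ifs with h5
      · rw [Multiset.insert_eq_cons, Multiset.insert_eq_cons s, Multiset.insert_eq_cons (t 0),
          Multiset.add_cons, Multiset.cons_add, Multiset.singleton_add]
      · rw [Multiset.insert_eq_cons, Multiset.insert_eq_cons s,
          Multiset.add_cons, Multiset.cons_add, Multiset.singleton_add]
    rw [e1, Multiset.nodup_cons, Multiset.nodup_cons, Multiset.nodup_cons]
    refine ⟨?_, ?_, ?_, h1'⟩
    · simp only [Multiset.mem_cons, not_or]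
      refine ⟨hsa, hsad, ?_⟩
      split_ifs
      · simp only [Multiset.insert_eq_cons, Multiset.mem_cons, Multiset.mem_singleton, not_or]
        exact ⟨Ne.symm ht1, Ne.symm hτ1⟩
      · simp only [Multiset.mem_singleton]
        exact Ne.symm ht1
    · simp only [Multiset.mem_cons, not_or]
      refine ⟨hsasad, ?_⟩
      split_ifs
      · simp only [Multiset.insert_eq_cons, Multiset.mem_cons, Multiset.mem_singleton, not_or]
        exact ⟨Ne.symm ht2, Ne.symm hτ2⟩
      · simp only [Multiset.mem_singleton]
        exact Ne.symm ht2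
    · split_ifs
      · simp only [Multiset.insert_eq_cons, Multiset.mem_cons, Multiset.mem_singleton, not_or]
        exact ⟨Ne.symm ht3, Ne.symm hτ3⟩
      · simp only [Multiset.mem_singleton]
        exact Ne.symm ht3
  · intro y hy
    have hk3 : k ≠ 3 := by omega
    simp only [Gad.verts, Multiset.singleton_bind, jl, hk3, if_false, Multiset.mem_add,
      Multiset.insert_eq_cons, Multiset.mem_cons, Multiset.mem_singleton] at hy
    rcases hy with (rfl | rfl) | hy
    · exact hs2
    · exact hs3
    · split_ifs at hy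
      · simp only [Multiset.insert_eq_cons, Multiset.mem_cons, Multiset.mem_singleton] at hy
        rcases hy with rfl | rfl | rfl
        · exact hs1
        · exact ht0
        · exact hτ0
      · simp only [Multiset.insert_eq_cons, Multiset.mem_cons, Multiset.mem_singleton] at hy
        rcases hy with rfl | rfl
        · exact hs1
        · exact ht0
  · have e1 : (⟨{(s, t 0, τ 0)}, {s * a, s * (a * d)},
      {a, d, (s * (a * d))⁻¹ * t 0}⟩ : Gad G).cols k =
      a ::ₘ d ::ₘ ((s * (a * d))⁻¹ * t 0) ::ₘ tl k (s, t 0, τ 0) := by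
      simp only [Gad.cols, Multiset.singleton_bind]
      rw [Multiset.insert_eq_cons, Multiset.insert_eq_cons d, Multiset.cons_add,
        Multiset.cons_add, Multiset.singleton_add]
    rw [e1, Multiset.nodup_cons, Multiset.nodup_cons]
    refine ⟨?_, ?_, h3'⟩
    · rw [Multiset.mem_cons, not_or]
      refine ⟨had, ?_⟩
      intro h5
      exact (h4' _ h5).1.2.1 rfl
    · intro h5
      exact (h4' _ h5).1.2.2 rfl
  · intro c hc
    rcases hcols c hc with rfl | rfl | h5
    · exact haC
    · exact hdC
    · exact (h4' _ h5).1.1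
  · intro c hc
    rcases hcols c hc with rfl | rfl | h5
    · exact ha1
    · exact hd
    · exact (h4' _ h5).2
  · simp only [Gad.idx, Multiset.map_singleton, sidx]
    have := MS.three s (t 0) (s * a) (s * (a * d))
    have e1 : s⁻¹ * (s * a) = a := by group
    have e2 : (s * a)⁻¹ * (s * (a * d)) = d := by group
    rw [e1, e2] at this
    exact this
  · simp

end one

theorem pre_one (hCL : Stmt_CLOSE) : ∃ K : ℕ, ∀ (G : Type) [Group G] [Fintype G] [DecidableEq G]
    (k : ℕ) (FV FC : Finset G), 3 ≤ k → k ∣ Fintype.card G - 1 →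
    K * (FV.card + FC.card + 1) ≤ Fintype.card G →
    ∀ d : G, d ≠ 1 → d ∉ FC → ∃ E : Gad G, E.size ≤ 6 ∧ Fresh k FV FC E ∧
      MS E.idx E.V E.C ∧ d ∈ E.C := by
  obtain ⟨K, hK⟩ := pre_four hCL
  refine ⟨K + 40, ?_⟩
  intro G _ _ _ k FV FC hk hkn hn d hd hdC
  rcases Nat.eq_or_lt_of_le hk with h3 | h4
  · subst h3
    apply pre_three FV FC _ d hd hdC
    exact (Nat.mul_le_mul_right _ (by omega)).trans hn
  · apply hK G k FV FC h4 hkn _ d hd hdC
    exact (Nat.mul_le_mul_right _ (by omega)).trans hn

theorem stmt_PRE (hCL : Stmt_CLOSE) : Stmt_PRE := by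
  intro K₀
  obtain ⟨K, hK⟩ := pre_one hCL
  refine ⟨K * (62 * K₀ + 1) + 12 * K₀, ?_⟩
  intro G _ _ _ k γ hk hkn hn
  set Bad : Finset G := univ.filter fun d : G => d ≠ 1 ∧
    (Fintype.card G < K₀ * rt d ∨ Fintype.card G < K₀ * cj d γ) with hBad
  have hBcard : Bad.card ≤ 2 * K₀ := by
    have h1 : Bad ⊆ (univ.filter fun c : G => Fintype.card G < K₀ * rt c) ∪
        (univ.filter fun c : G => Fintype.card G < K₀ * cj c γ) := by
      intro d hd
      simp only [hBad, Finset.mem_filter, Finset.mem_univ, true_and, Finset.mem_union] at hd ⊢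
      exact hd.2
    have h2 := Finset.card_le_card h1
    have h3 := Finset.card_union_le (univ.filter fun c : G => Fintype.card G < K₀ * rt c)
        (univ.filter fun c : G => Fintype.card G < K₀ * cj c γ)
    have h4 := card_badrt (G := G) K₀
    have h5 := card_badcj K₀ γ
    omega
  have key : ∀ S : Finset G, S ⊆ Bad → ∃ D : Gad G, D.size ≤ 6 * S.card ∧
      Fresh k ∅ (Bad \ S) D ∧ MS D.idx D.V D.C ∧ ∀ d ∈ S, d ∈ D.C := by
    intro S
    induction S using Finset.induction_on with
    | empty =>
      intro _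
      exact ⟨Gad.zero, by simp [Gad.size, Gad.zero], Fresh.zero _ _ _,
        by simpa [Gad.idx, Gad.zero] using MS.zero, by simp⟩
    | insert d S hdS ih =>
      intro hS
      obtain ⟨D, hDs, hDf, hDm, hDc⟩ := ih ((Finset.subset_insert _ _).trans hS)
      have hdB : d ∈ Bad := hS (Finset.mem_insert_self _ _)
      have hd1 : d ≠ 1 := by
        rw [hBad, Finset.mem_filter] at hdB
        exact hdB.2.1
      have hSc : S.card + 1 ≤ 2 * K₀ := by
        have := Finset.card_le_card hS
        rw [Finset.card_insert_of_notMem hdS] at this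
        omega
      have hdD : d ∉ D.cf k := by
        intro h
        rw [Gad.cf, Multiset.mem_toFinset] at h
        exact hDf.cfr d h (Finset.mem_sdiff.mpr ⟨hdB, hdS⟩)
      obtain ⟨E, hEs, hEf, hEm, hEd⟩ := hK G k (∅ ∪ D.vf k) ((Bad \ insert d S) ∪ D.cf k) hk hkn
        (by
          have e1 : (∅ ∪ D.vf k).card ≤ 36 * K₀ := by
            rw [Finset.empty_union]
            have := D.card_vf_le k
            omega
          have e2 : ((Bad \ insert d S) ∪ D.cf k).card ≤ 26 * K₀ := by
            have h1 := Finset.card_union_le (Bad \ insert d S) (D.cf k)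
            have h2 := D.card_cf_le k
            have h3 : (Bad \ insert d S).card ≤ Bad.card :=
              Finset.card_le_card Finset.sdiff_subset
            omega
          calc K * ((∅ ∪ D.vf k).card + ((Bad \ insert d S) ∪ D.cf k).card + 1)
              ≤ K * (62 * K₀ + 1) := Nat.mul_le_mul_left _ (by omega)
            _ ≤ _ := by omega)
        d hd1 (by
          rw [Finset.mem_union, not_or]
          refine ⟨?_, hdD⟩
          rw [Finset.mem_sdiff]
          intro h
          exact h.2 (Finset.mem_insert_self _ _))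
      refine ⟨D.add E, ?_, ?_, ?_, ?_⟩
      · rw [Gad.add_size, Finset.card_insert_of_notMem hdS]
        omega
      · apply Fresh.add
        · apply hDf.mono (Finset.Subset.refl _)
          exact Finset.sdiff_subset_sdiff (Finset.Subset.refl _) (Finset.subset_insert _ _)
        · exact hEf
      · rw [Gad.add_idx, Gad.add_V, Gad.add_C]
        exact hDm.add hEm
      · intro c hc
        rw [Gad.add_C, Multiset.mem_add]
        rcases Finset.mem_insert.mp hc with rfl | hc
        · exact Or.inr hEd
        · exact Or.inl (hDc c hc)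
  obtain ⟨D, h1, h2, h3, h4⟩ := key Bad (Finset.Subset.refl _)
  refine ⟨D, ?_, ?_, h3, ?_⟩
  · have : 6 * Bad.card ≤ 12 * K₀ := by omega
    omega
  · exact h2.mono (Finset.Subset.refl _) (Finset.empty_subset _)
  · intro d hd hd'
    apply h4
    rw [hBad, Finset.mem_filter]
    exact ⟨Finset.mem_univ _, hd, hd'⟩

end Pool.OM.H43
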