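import Pool.Agent.Work.MP_8d2cba_co_h18.Basic

/-! MP_8d2cba_co: block FIN (helper43). -/

set_option autoImplicit false

namespace Pool.OM.H43

open Finset Pool.OM

section seg
variable {G : Type} [Group G]

theorem pcols_append (s m t : G) (p q : List G) :
    pcols s (p ++ m :: q) t = pcols s p m + pcols m q t := by
  induction p generalizing s with
  | nil => simp [pcols]
  | cons x p ih => simp [pcols, ih]

theorem ms_zero {V C : Multiset G} (h : MS 0 V C) : V = 0 ∧ C = 0 := by
  have h1 := h.card_V
  have h2 := h.card_C
  simp only [Multiset.map_zero, Multiset.sum_zero] at h1 h2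
  exact ⟨Multiset.card_eq_zero.mp h1, Multiset.card_eq_zero.mp h2⟩

theorem cidxAux_paths (s₀ : G) : ∀ (c : List (G × ℕ)), c ≠ [] → ∀ (V C : Multiset G),
    MS (cidxAux s₀ c) V C → ∃ (s : G) (p : List G), c.head?.map Prod.fst = some s ∧
      pcols s p s₀ = C ∧ ((s :: p : List G) : Multiset G) = ((c.map Prod.fst : List G) : Multiset G)
        + V ∧ p.length + 1 = (c.map Prod.snd).sum := by
  intro c
  induction c with
  | nil => intro h; exact absurd rfl h
  | cons a L ih =>
    intro _ V C h
    cases L with
    | nil =>
      obtain ⟨s, ℓ⟩ := a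
      simp only [cidxAux] at h
      have h' : MS ((s, s₀, ℓ) ::ₘ 0) V C := h
      obtain ⟨p, V', C', e, hm, rfl, rfl⟩ := h'.cons_inv
      obtain ⟨rfl, rfl⟩ := ms_zero hm
      refine ⟨s, p, rfl, ?_, ?_, ?_⟩
      · simp
      · simp
      · simpa using e.symm
    | cons b L =>
      obtain ⟨s, ℓ⟩ := a
      obtain ⟨s', ℓ'⟩ := b
      simp only [cidxAux] at h
      obtain ⟨p, V', C', e, hm, rfl, rfl⟩ := h.cons_inv
      obtain ⟨s'', q, h1, h2, h3, h4⟩ := ih (List.cons_ne_nil _ _) V' C' hm
      simp only [List.head?_cons, Option.map_some, Option.some.injEq] at h1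
      subst h1
      refine ⟨s, p ++ s' :: q, rfl, ?_, ?_, ?_⟩
      · rw [pcols_append, h2]
      · rw [List.map_cons]
        have e1 : ((s :: (p ++ s' :: q) : List G) : Multiset G) =
            s ::ₘ ((p : Multiset G) + ((s' :: q : List G) : Multiset G)) := by
          rw [Multiset.coe_add, Multiset.cons_coe]
        rw [e1, h3]
        simp only [List.map_cons, ← Multiset.cons_coe]
        rw [Multiset.cons_add]
        congr 1
        simp only [Multiset.cons_add, Multiset.add_cons]
        congr 1
        abel
      · simp only [List.map_cons, List.sum_cons, List.length_append, List.length_cons] at h4 ⊢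
        dsimp only at e
        omega

/-- cyclic colours -/
def ccols : List G → Multiset G
  | [] => 0
  | x :: p => pcols x p x

theorem cycles_exist (k : ℕ) (hk : 1 ≤ k) : ∀ (L : List (List (G × ℕ))),
    (∀ c ∈ L, (c.map Prod.snd).sum = k) → ∀ V C : Multiset G, MS (L.map cidx).sum V C →
    ∃ W : List (List G), (∀ w ∈ W, w.length = k) ∧
      ((W.flatten : List G) : Multiset G) =
        (L.map fun c => ((c.map Prod.fst : List G) : Multiset G)).sum + V ∧
      (W.map ccols).sum = C := by
  intro L
  induction L with
  | nil =>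
    intro _ V C h
    simp only [List.map_nil, List.sum_nil] at h
    obtain ⟨rfl, rfl⟩ := ms_zero h
    exact ⟨[], by simp, by simp, by simp⟩
  | cons c L ih =>
    intro hL V C h
    rw [List.map_cons, List.sum_cons] at h
    obtain ⟨V₁, V₂, C₁, C₂, h1, h2, rfl, rfl⟩ := h.split
    obtain ⟨W, hW1, hW2, hW3⟩ := ih (fun c hc => hL c (List.mem_cons_of_mem _ hc)) V₂ C₂ h2
    have hck := hL c List.mem_cons_self
    have hc : c ≠ [] := by
      rintro rfl
      simp at hck
      omega
    obtain ⟨⟨s, ℓ⟩, c', rfl⟩ := List.exists_cons_of_ne_nil hc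
    simp only [cidx] at h1
    obtain ⟨s', p, e1, e2, e3, e4⟩ := cidxAux_paths s _ hc V₁ C₁ h1
    simp only [List.head?_cons, Option.map_some, Option.some.injEq] at e1
    subst e1
    refine ⟨(s :: p) :: W, ?_, ?_, ?_⟩
    · intro w hw
      rcases List.mem_cons.mp hw with rfl | hw
      · rw [List.length_cons, e4, hck]
      · exact hW1 w hw
    · rw [List.flatten_cons, ← Multiset.coe_add, e3, hW2, List.map_cons (l := L), List.sum_cons]
      exact add_add_add_comm _ _ _ _
    · rw [List.map_cons, List.sum_cons, hW3]
      simp only [ccols]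
      rw [e2]

end seg

section perm
variable {G : Type} [Group G] [DecidableEq G]

theorem pcols_eq_zip (s : G) (p : List G) (t : G) :
    pcols s p t = ((List.zipWith (fun a b => a⁻¹ * b) (s :: p) (p ++ [t]) : List G) :
      Multiset G) := by
  induction p generalizing s with
  | nil => simp [pcols]
  | cons x p ih =>
    simp only [pcols]
    rw [ih]
    simp

theorem ccols_eq (w : List G) (hw : w.Nodup) :
    ccols w = ((w : Multiset G)).map fun y => y⁻¹ * w.formPerm y := by
  cases w with
  | nil => simp [ccols]
  | cons x p =>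
    simp only [ccols]
    rw [pcols_eq_zip, Multiset.map_coe]
    congr 1
    apply List.ext_getElem
    · simp
    · intro i h1 h2
      rw [List.getElem_zipWith, List.getElem_map]
      congr 1
      have h3 : i < (x :: p).length := by simpa using h2
      rw [List.formPerm_apply_getElem (x :: p) hw i h3]
      by_cases h4 : i + 1 < (x :: p).length
      · have h5 : (i + 1) % (x :: p).length = i + 1 := Nat.mod_eq_of_lt h4
        simp only [h5]
        rw [List.getElem_append_left (by simpa using h4)]
        simp
      · have h4' : i + 1 = (x :: p).length := by omega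
        have h5 : (i + 1) % (x :: p).length = 0 := by rw [h4', Nat.mod_self]
        simp only [h5]
        rw [List.getElem_append_right (by simp at h4'; omega)]
        simp

/-- product of the cycles -/
def theta (W : List (List G)) : Equiv.Perm G := (W.map List.formPerm).prod

theorem theta_not_mem (W : List (List G)) (x : G) (hx : x ∉ W.flatten) : theta W x = x := by
  induction W with
  | nil => simp [theta]
  | cons w W ih =>
    rw [List.flatten_cons, List.mem_append, not_or] at hx
    have e : theta (w :: W) x = w.formPerm (theta W x) := by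
      simp [theta]
    rw [e, ih hx.2, List.formPerm_apply_of_notMem hx.1]

theorem theta_mem (W : List (List G)) (hW : W.flatten.Nodup) (w : List G) (hw : w ∈ W) (x : G)
    (hx : x ∈ w) : theta W x = w.formPerm x := by
  induction W with
  | nil => simp at hw
  | cons w' W ih =>
    rw [List.flatten_cons, List.nodup_append] at hW
    obtain ⟨h1, h2, h3⟩ := hW
    have e : theta (w' :: W) x = w'.formPerm (theta W x) := by
      simp [theta]
    rw [e]
    rcases List.mem_cons.mp hw with rfl | hw
    · rw [theta_not_mem W x (fun h => h3 x hx x h rfl)]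
    · rw [ih h2 hw]
      have h4 : w.formPerm x ∈ w := List.formPerm_apply_mem_of_mem hx
      apply List.formPerm_apply_of_notMem
      intro h5
      exact h3 _ h5 _ (List.mem_flatten.mpr ⟨w, hw, h4⟩) rfl

theorem theta_cols (W : List (List G)) (hW : W.flatten.Nodup) :
    (W.map ccols).sum = ((W.flatten : List G) : Multiset G).map fun y => y⁻¹ * theta W y := by
  have key : ∀ W' : List (List G), (∀ w ∈ W', w ∈ W) →
      (W'.map ccols).sum = ((W'.flatten : List G) : Multiset G).map fun y => y⁻¹ * theta W y := by
    intro W'
    induction W' with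
    | nil => intro _; simp
    | cons w W' ih =>
      intro h
      rw [List.map_cons, List.sum_cons, List.flatten_cons, ← Multiset.coe_add, Multiset.map_add,
        ih (fun v hv => h v (List.mem_cons_of_mem _ hv))]
      congr 1
      have hw : w ∈ W := h w List.mem_cons_self
      have hnd : w.Nodup := by
        rw [List.nodup_flatten] at hW
        exact hW.1 w hw
      rw [ccols_eq w hnd]
      apply Multiset.map_congr rfl
      intro y hy
      rw [theta_mem W hW w hw y (by simpa using hy)]
  exact key W (fun _ h => h)

theorem theta_iter (W : List (List G)) (hW : W.flatten.Nodup) (w : List G) (hw : w ∈ W)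
    (x : G) (hx : x ∈ w) (m : ℕ) : (theta W)^[m] x = (w.formPerm ^ m) x := by
  have hmem : ∀ m : ℕ, (w.formPerm ^ m) x ∈ w := by
    intro m
    induction m with
    | zero => simpa using hx
    | succ m ih =>
      rw [pow_succ', Equiv.Perm.mul_apply]
      exact List.formPerm_apply_mem_of_mem ih
  induction m with
  | zero => simp
  | succ m ih =>
    rw [Function.iterate_succ_apply', ih, pow_succ', Equiv.Perm.mul_apply,
      theta_mem W hW w hw _ (hmem m)]

theorem theta_period (W : List (List G)) (hW : W.flatten.Nodup) (w : List G) (hw : w ∈ W)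
    (x : G) (hx : x ∈ w) : Function.minimalPeriod (theta W) x = w.length := by
  have hnd : w.Nodup := by
    rw [List.nodup_flatten] at hW
    exact hW.1 w hw
  obtain ⟨i, hi, rfl⟩ := List.getElem_of_mem hx
  have key : ∀ m : ℕ, Function.IsPeriodicPt (theta W) m (w[i]) ↔ w.length ∣ m := by
    intro m
    rw [Function.IsPeriodicPt, Function.IsFixedPt, theta_iter W hW w hw _ hx,
      List.formPerm_pow_apply_getElem w hnd m i hi]
    rw [hnd.getElem_inj_iff]
    constructor
    · intro h
      have h1 : (i + m) ≡ i [MOD w.length] := by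
        rw [Nat.ModEq, h, Nat.mod_eq_of_lt hi]
      have h2 : i ≡ i + m [MOD w.length] := h1.symm
      have h3 := (Nat.modEq_iff_dvd' (Nat.le_add_right i m)).mp h2
      simpa using h3
    · rintro ⟨q, rfl⟩
      rw [Nat.add_mul_mod_self_left, Nat.mod_eq_of_lt hi]
  have h1 : Function.minimalPeriod (theta W) (w[i]) ∣ w.length :=
    ((key w.length).mpr (dvd_refl _)).minimalPeriod_dvd
  have h2 : w.length ∣ Function.minimalPeriod (theta W) (w[i]) :=
    (key _).mp (Function.isPeriodicPt_minimalPeriod _ _)
  exact Nat.dvd_antisymm h1 h2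

end perm

theorem stmt_FIN : Stmt_FIN := by
  intro G _ _ _ k hk L hL V C v₀ hMS hV hC
  obtain ⟨W, hW1, hW2, hW3⟩ := cycles_exist k hk L (fun c hc => (hL c hc).1) V C hMS
  rw [hV] at hW2
  have hnd : W.flatten.Nodup := by
    rw [← Multiset.coe_nodup, hW2]
    exact (univ.erase v₀).nodup
  have hmem : ∀ x : G, x ∈ W.flatten ↔ x ≠ v₀ := by
    intro x
    rw [← Multiset.mem_coe, hW2, Finset.mem_val]
    simp
  have hv₀ : theta W v₀ = v₀ := theta_not_mem W v₀ (by rw [hmem]; simp)
  have hcols : (univ : Finset G).val.map (fun y => y⁻¹ * theta W y) = (univ : Finset G).val := by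
    have h1 := theta_cols W hnd
    rw [hW3, hW2, hC] at h1
    have h2 : (univ : Finset G).val = v₀ ::ₘ (univ.erase v₀).val := by
      rw [← Finset.insert_val_of_notMem (Finset.notMem_erase v₀ univ), Finset.insert_erase]
      exact Finset.mem_univ _
    have h3 : (univ : Finset G).val = 1 ::ₘ (univ.erase (1 : G)).val := by
      rw [← Finset.insert_val_of_notMem (Finset.notMem_erase (1 : G) univ), Finset.insert_erase]
      exact Finset.mem_univ _
    conv_rhs => rw [h3]
    conv_lhs => rw [h2]
    rw [Multiset.map_cons, ← h1, hv₀]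
    simp
  have hbij : Function.Bijective fun y : G => y⁻¹ * theta W y := by
    rw [Finite.injective_iff_bijective.symm, Finite.injective_iff_surjective]
    intro y
    have h1 : y ∈ (univ : Finset G).val.map (fun y => y⁻¹ * theta W y) := by
      rw [hcols]
      exact Finset.mem_univ y
    obtain ⟨x, _, hx⟩ := Multiset.mem_map.mp h1
    exact ⟨x, hx⟩
  refine ⟨((Equiv.mulLeft v₀).trans (theta W)).trans (Equiv.mulLeft v₀⁻¹), ?_, ?_, ?_⟩
  · have h1 : (fun x : G => x⁻¹ * (((Equiv.mulLeft v₀).trans (theta W)).trans
        (Equiv.mulLeft v₀⁻¹)) x) = (fun y : G => y⁻¹ * theta W y) ∘ (fun x => v₀ * x) := by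
      funext x
      simp [mul_assoc]
    rw [h1]
    exact hbij.comp (Group.mulLeft_bijective v₀)
  · simp [hv₀]
  · intro x hx
    have hx' : v₀ * x ∈ W.flatten := by
      rw [hmem]
      intro h
      exact hx (mul_eq_left.mp h)
    obtain ⟨w, hw, hxw⟩ := List.mem_flatten.mp hx'
    rw [← hW1 w hw, ← theta_period W hnd w hw _ hxw]
    rw [Function.minimalPeriod_eq_minimalPeriod_iff]
    intro m
    have h1 : ∀ m : ℕ, (((Equiv.mulLeft v₀).trans (theta W)).trans
        (Equiv.mulLeft v₀⁻¹))^[m] x = v₀⁻¹ * (theta W)^[m] (v₀ * x) := by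
      intro m
      induction m with
      | zero => simp
      | succ m ih =>
        rw [Function.iterate_succ_apply', ih, Function.iterate_succ_apply']
        simp
    rw [Function.IsPeriodicPt, Function.IsFixedPt, h1, Function.IsPeriodicPt, Function.IsFixedPt]
    constructor
    · intro h
      have h2 : v₀ * (v₀⁻¹ * (theta W)^[m] (v₀ * x)) = v₀ * x := by rw [h]
      rwa [mul_inv_cancel_left] at h2
    · intro h
      rw [h]; simp

end Pool.OM.H43
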